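import Pool.Agent.Helper19.RD.Stmts9
import Pool.Agent.Helper39.RD8.MAIN8
import Pool.Agent.Helper46.RD.W
import Pool.Agent.Helper83.RU.RCORE

/-! Project RD, T7: only the primes `> N` of `q` matter. -/

set_option autoImplicit false

namespace Pool.Agent.Helper83.RD8

open Finset Pool.Agent.Helper18.RD Pool.Agent.Helper19.RD Pool.Agent.Helper39.RD8

/-- T7: `q = q0 q1 q2`, all primes of `q0` at most `N` -/
def ST_T7 : Prop := ∀ ε : ℝ, 0 < ε → ∃ C : ℝ, 0 < C ∧ ∀ N q0 q1 q2 a : ℕ, 1 ≤ N →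
  1 ≤ q0 → 1 ≤ q1 → 1 ≤ q2 → Nat.Coprime q0 q1 → Nat.Coprime (q0 * q1) q2 →
  Nat.Coprime (q0 * q1 * q2) a → (∀ p : ℕ, p.Prime → p ∣ q0 → p ≤ N) →
  (((range N).filter (fun n => IsSquare (q0 * q1 * q2 * n + a))).card : ℝ) ≤
    C * ((N : ℝ) ^ ε * (Real.sqrt N + Real.log q1 ^ (1 / 4 : ℝ)) + (q2.primeFactors.card : ℝ))

/-- LQ2: if there are many squares then `log q ≤ C (N + log q1)`. -/
def ST_LQ2 : Prop := ∀ ε : ℝ, 0 < ε → ∃ C : ℝ, 0 < C ∧ ∀ N q0 q1 q2 a : ℕ, 1 ≤ N →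
  1 ≤ q0 → 1 ≤ q1 → 1 ≤ q2 → Nat.Coprime q0 q1 → Nat.Coprime (q0 * q1) q2 →
  Nat.Coprime (q0 * q1 * q2) a → (∀ p : ℕ, p.Prime → p ∣ q0 → p ≤ N) →
  C * ((N : ℝ) ^ (1 / 2 + ε) + (q2.primeFactors.card : ℝ)) <
    (((range N).filter (fun n => IsSquare (q0 * q1 * q2 * n + a))).card : ℝ) →
  Real.log ((q0 * q1 * q2 : ℕ) : ℝ) ≤ C * ((N : ℝ) + Real.log q1)

lemma t7_log (N q a : ℕ) (hN : 1 ≤ N) (hq : 1 ≤ q) :
    0 ≤ wi N q a ∧ Real.log q ≤ wi N q a + ∑ l ∈ OP q, wt q l := by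
  classical
  have hNr : (1 : ℝ) ≤ N := by exact_mod_cast hN
  have hqr : (0 : ℝ) < q := by exact_mod_cast hq
  have h8 : Real.log 8 ≤ Real.log (8 * ((a : ℝ) / q + N)) := by
    apply Real.log_le_log (by norm_num)
    have : 0 ≤ (a : ℝ) / q := by positivity
    linarith
  have hl2 : 0 < Real.log 2 := Real.log_pos (by norm_num)
  have h82 : Real.log 2 ≤ Real.log 8 := Real.log_le_log (by norm_num) (by norm_num)
  have hEE : Real.log (EE q) = ((q.factorization 2 - 1 : ℕ) : ℝ) * Real.log 2 := by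
    unfold EE
    push_cast
    rw [Real.log_pow]
  have hEE0 : 0 ≤ Real.log (EE q) := by rw [hEE]; positivity
  have hv : (q.factorization 2 : ℝ) * Real.log 2 ≤ Real.log 2 + Real.log (EE q) := by
    rw [hEE]
    have h1 : (q.factorization 2 : ℝ) ≤ 1 + ((q.factorization 2 - 1 : ℕ) : ℝ) := by
      have : q.factorization 2 ≤ 1 + (q.factorization 2 - 1) := by omega
      exact_mod_cast this
    nlinarith
  have hwt : ∀ l ∈ OP q, wt q l = (q.factorization l : ℝ) * Real.log l := by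
    intro l _
    unfold wt pw
    push_cast
    rw [Real.log_pow]
  have hsum : Real.log q ≤ (q.factorization 2 : ℝ) * Real.log 2 + ∑ l ∈ OP q, wt q l := by
    rw [← Pool.Agent.Helper83.RU.RCORE.sum_log q, sum_congr rfl hwt]
    unfold OP
    by_cases h2 : 2 ∈ q.primeFactors
    · rw [← add_sum_erase _ _ h2]
      push_cast
      linarith
    · rw [erase_eq_of_notMem h2]
      have : 0 ≤ (q.factorization 2 : ℝ) * Real.log 2 := by positivity
      linarith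
  unfold wi
  constructor
  · linarith
  · linarith

lemma t7_w (hTR : ST_TR) (hGR : ST_GR) (N q a : ℕ) (S J V : Finset ℕ) (e c d : ℕ → ℕ → ℤ) (k : ℤ)
    (w : ℝ) (m : ℕ → ℤ) (hN : 1 ≤ N) (hq : 1 ≤ q) (hco : Nat.Coprime q a)
    (hD : DatR N q a S e c d k w m) (hJ : J ⊆ S) (hV : V ⊆ OP q)
    (hc : 2 * (V.card + 1) ≤ J.card) :
    Real.log q ≤ 2 * ∑ l ∈ OP q \ V, wt q l + 2 * Real.sqrt J.card * HH N := by
  classical
  obtain ⟨b, hb, he, hEE⟩ := hD.sg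
  obtain ⟨hw0, hlog⟩ := t7_log N q a hN hq
  set A : Finset ℕ := OP q \ V with hA
  set V1 : Finset (Option ℕ) := A.map Function.Embedding.some with hV1
  set V2 : Finset (Option ℕ) := Finset.insertNone V with hV2
  have hdisj : Disjoint V1 V2 := by
    rw [Finset.disjoint_left]
    intro x hx hx2
    rw [hV1, Finset.mem_map] at hx
    obtain ⟨l, hl, rfl⟩ := hx
    rw [hV2] at hx2
    have h3 : l ∈ V := by
      have := Finset.some_mem_insertNone.1 hx2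
      exact this
    exact (Finset.mem_sdiff.1 hl).2 h3
  have hsum : ∀ f : Option ℕ → ℝ, ∑ x ∈ V1 ∪ V2, f x = f none + ∑ l ∈ OP q, f (some l) := by
    intro f
    rw [Finset.sum_union hdisj, hV1, hV2, Finset.sum_map, Finset.sum_insertNone,
      ← Finset.sum_sdiff hV]
    simp only [Function.Embedding.some_apply]
    ring
  have hsum1 : ∀ f : Option ℕ → ℝ, ∑ x ∈ V1, f x = ∑ l ∈ A, f (some l) := by
    intro f
    rw [hV1, Finset.sum_map]
    rfl
  have hV2c : V2.card = V.card + 1 := by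
    rw [hV2, Finset.card_insertNone]
  have key := hTR (Option ℕ) V1 V2 J (fun x => Option.elim x (wi N q a) (fun l => wt q l))
    (fun n x => Option.elim x 1 (fun l => (e n l : ℝ))) (HH N) ?_ (HH_nonneg hN) ?_ hdisj ?_
    (by omega)
  · rw [hsum, hsum1] at key
    simp only [Option.elim_none, Option.elim_some] at key
    linarith
  · intro x
    cases x with
    | none => exact hw0
    | some l => exact wt_nonneg _ _
  · intro n x
    cases x with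
    | none => show (1 : ℝ) ^ 2 = 1; norm_num
    | some l =>
      show ((e n l : ℤ) : ℝ) ^ 2 = 1
      rcases hD.dat.sgn n l with h | h <;> rw [h] <;> norm_num
  · intro n hn n' hn' hne
    have hnS := hD.sub (hJ hn)
    have hnS' := hD.sub (hJ hn')
    obtain ⟨g1, g2⟩ := hGR N q a b n n' ⟨hq, hco, hb, (mem_filter.1 hnS).2, (mem_filter.1 hnS').2,
      hne, by
        have h1 := hEE n (hJ hn)
        have h2 := hEE n' (hJ hn')
        have h3 := dvd_sub h1 h2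
        rwa [show (mm q a n : ℤ) - mm q a b - ((mm q a n' : ℤ) - mm q a b) =
          (mm q a n : ℤ) - mm q a n' by ring] at h3⟩ (mem_range.1 (mem_filter.1 hnS).1)
      (mem_range.1 (mem_filter.1 hnS').1)
    rw [hsum]
    have h3 : (Option.elim none (wi N q a) (fun l => wt q l) *
        (Option.elim none 1 (fun l => (e n l : ℝ)) * Option.elim none 1 (fun l => (e n' l : ℝ))) +
        ∑ l ∈ OP q, Option.elim (some l) (wi N q a) (fun l => wt q l) *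
          (Option.elim (some l) 1 (fun l => (e n l : ℝ)) *
            Option.elim (some l) 1 (fun l => (e n' l : ℝ)))) =
        wi N q a + ∑ l ∈ OP q, wt q l *
          ((Pool.Agent.Helper18.RD.sg q a b n l * Pool.Agent.Helper18.RD.sg q a b n' l : ℤ) : ℝ) := by
      simp only [Option.elim_none, Option.elim_some, mul_one]
      congr 1
      refine Finset.sum_congr rfl fun l _ => ?_
      rw [he, he]
      push_cast
      ring
    rw [h3, abs_of_nonneg g1]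
    exact g2

/-- the arithmetic at the end -/
lemma t7_fin (CU L Q t M l1 H N τ : ℝ) (hCU : 0 < CU) (hQ : 0 ≤ Q) (hL : 1 ≤ L)
    (ht : 32 * CU ≤ t ^ 2) (ht0 : 0 < t) (htN : τ ≤ N) (hN : 1 ≤ N) (hLN : L ≤ 3 * Real.sqrt N)
    (hH : H ≤ 3 * L)
    (h1 : M * (t ^ 4 / 4) ≤ CU * (t ^ 2 * Q + t ^ 4 * Real.sqrt (Q * L)))
    (h2 : Q ≤ 2 * (M + l1) + 2 * Real.sqrt τ * H) :
    Q ≤ (384 * CU ^ 2 + 36) * N + 4 * l1 := by
  obtain ⟨R, hR⟩ : ∃ R : ℝ, R = Real.sqrt (Q * L) := ⟨_, rfl⟩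
  have hR0 : 0 ≤ R := by rw [hR]; exact Real.sqrt_nonneg _
  have hR2 : R ^ 2 = Q * L := by rw [hR]; exact Real.sq_sqrt (by positivity)
  rw [← hR] at h1
  have h3 : M * t ^ 2 ≤ 4 * CU * (Q + t ^ 2 * R) := by
    have h4 : (M * t ^ 2) * t ^ 2 ≤ (4 * CU * (Q + t ^ 2 * R)) * t ^ 2 := by nlinarith
    exact le_of_mul_le_mul_right h4 (by positivity)
  have h5 : M ≤ Q / 8 + 4 * CU * R := by
    have h6 : M * t ^ 2 ≤ (Q / 8 + 4 * CU * R) * t ^ 2 := by
      have h7 : 4 * CU * Q ≤ Q / 8 * t ^ 2 := by nlinarith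
      nlinarith
    exact le_of_mul_le_mul_right h6 (by positivity)
  have h8 : 8 * CU * R ≤ Q / 4 + 64 * CU ^ 2 * L := by
    have h9 : (8 * CU * R) ^ 2 ≤ (Q / 4 + 64 * CU ^ 2 * L) ^ 2 := by
      have h10 : (8 * CU * R) ^ 2 = 64 * CU ^ 2 * (Q * L) := by rw [mul_pow, hR2]; ring
      rw [h10]
      nlinarith [sq_nonneg (Q / 4 - 64 * CU ^ 2 * L)]
    exact le_of_pow_le_pow_left₀ (by norm_num) (by positivity) h9
  have hsN : 0 ≤ Real.sqrt N := Real.sqrt_nonneg _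
  have hsN2 : Real.sqrt N * Real.sqrt N = N := Real.mul_self_sqrt (by linarith)
  have hst : Real.sqrt τ ≤ Real.sqrt N := Real.sqrt_le_sqrt htN
  have hst0 : 0 ≤ Real.sqrt τ := Real.sqrt_nonneg _
  have h11 : Real.sqrt τ * H ≤ 9 * N := by
    calc Real.sqrt τ * H ≤ Real.sqrt τ * (3 * L) := mul_le_mul_of_nonneg_left hH hst0
      _ ≤ Real.sqrt N * (3 * L) := mul_le_mul_of_nonneg_right hst (by linarith)
      _ ≤ Real.sqrt N * (3 * (3 * Real.sqrt N)) :=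
          mul_le_mul_of_nonneg_left (by linarith) hsN
      _ = 9 * (Real.sqrt N * Real.sqrt N) := by ring
      _ = 9 * N := by rw [hsN2]
  have h12 : Real.sqrt N ≤ N := by
    have : 1 ≤ Real.sqrt N := by rw [Real.one_le_sqrt]; exact hN
    nlinarith
  have h13 : 64 * CU ^ 2 * L ≤ 192 * CU ^ 2 * N := by
    have h14 : L ≤ 3 * N := by linarith
    have h15 : 0 ≤ 64 * CU ^ 2 := by positivity
    have h16 := mul_le_mul_of_nonneg_left h14 h15
    linarith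
  linarith

theorem st_LQ2 (hARR : ST_ARR) (hA1 : ST_A1) (hPG : ST_PG) (hSP2 : ST_SP2) (hUN : ST_UNS)
    (hTR : ST_TR) (hGR : ST_GR) : ST_LQ2 := by
  classical
  intro ε hε
  obtain ⟨η, hη⟩ : ∃ η : ℝ, η = min ε (1 / 10) := ⟨_, rfl⟩
  have hη0 : 0 < η := by rw [hη]; exact lt_min (by positivity) (by norm_num)
  have hη1 : η ≤ 1 / 10 := by rw [hη]; exact min_le_right _ _
  have hη2 : η ≤ ε := by rw [hη]; exact min_le_left _ _
  obtain ⟨δ1, N0, hδ1, hδη, hA⟩ := hA1 η hη0 hη1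
  obtain ⟨CU, hCU, hU⟩ := hUN
  obtain ⟨δ, hδd⟩ : ∃ δ : ℝ, δ = min δ1 (η / 4) := ⟨_, rfl⟩
  have hδ0 : 0 < δ := by rw [hδd]; exact lt_min hδ1 (by positivity)
  have hδ2 : δ ≤ η / 4 := by rw [hδd]; exact min_le_right _ _
  have hδ3 : δ ≤ δ1 := by rw [hδd]; exact min_le_left _ _
  obtain ⟨N1, hN1⟩ : ∃ N1 : ℕ, ∀ N : ℕ, N1 ≤ N → N0 ≤ N ∧ 256 ≤ (N : ℝ) ^ δ ∧
      25 * (1 + 4 / η) ≤ (N : ℝ) ^ (η / 4) ∧ 32 * CU ≤ (N : ℝ) := by
    have e1 := ((tendsto_rpow_atTop hδ0).comp tendsto_natCast_atTop_atTop).eventually_ge_atTop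
      (256 : ℝ)
    have e2 := ((tendsto_rpow_atTop (show (0 : ℝ) < η / 4 by positivity)).comp
      tendsto_natCast_atTop_atTop).eventually_ge_atTop (25 * (1 + 4 / η))
    have e3 := (tendsto_natCast_atTop_atTop (R := ℝ)).eventually_ge_atTop (32 * CU)
    obtain ⟨N1, hN1⟩ := Filter.eventually_atTop.mp
      ((Filter.eventually_ge_atTop N0).and (e1.and (e2.and e3)))
    exact ⟨N1, fun N hN => hN1 N hN⟩
  obtain ⟨K, hK⟩ : ∃ K : ℝ, K = 384 * CU ^ 2 + 36 := ⟨_, rfl⟩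
  have hK1 : 1 ≤ K := by rw [hK]; nlinarith [sq_nonneg CU]
  obtain ⟨C, hC⟩ : ∃ C : ℝ, C = N1 + 16 + K := ⟨_, rfl⟩
  have hN1' : (0 : ℝ) ≤ N1 := Nat.cast_nonneg _
  have hC0 : 0 < C := by rw [hC]; linarith
  refine ⟨C, hC0, ?_⟩
  intro N q0 q1 q2 a hN hq0 hq1 hq2 hc01 hc2 hcop hsm hbigs
  have hqq : q0 * q1 * q2 = q1 * (q0 * q2) := by ring
  rw [hqq] at hcop hbigs ⊢
  have hc1 : Nat.Coprime q1 (q0 * q2) := by
    refine Nat.Coprime.mul_right hc01.symm ?_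
    exact Nat.Coprime.coprime_dvd_left (Dvd.intro_left q0 rfl) hc2
  obtain ⟨q, hqdef⟩ : ∃ q : ℕ, q = q1 * (q0 * q2) := ⟨_, rfl⟩
  have hq02 : 1 ≤ q0 * q2 := Nat.mul_pos hq0 hq2
  have hq : 1 ≤ q := by rw [hqdef]; exact Nat.mul_pos hq1 hq02
  have hsw := sum_wt_le q1 (q0 * q2) hq1 hq02 hc1
  rw [← hqdef] at hcop hsw hbigs ⊢
  have hNr : (1 : ℝ) ≤ N := by exact_mod_cast hN
  have hN0 : (0 : ℝ) < N := by linarith
  have hlogN : 0 ≤ Real.log N := Real.log_nonneg hNr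
  have hQ0 : 0 ≤ Real.log q := Real.log_natCast_nonneg q
  have hl10 : 0 ≤ Real.log q1 := Real.log_natCast_nonneg q1
  obtain ⟨r, hr⟩ : ∃ r : ℝ, r = Real.sqrt N := ⟨_, rfl⟩
  have hr1 : 1 ≤ r := by rw [hr, Real.one_le_sqrt]; exact hNr
  obtain ⟨W, hW⟩ : ∃ W : ℝ, W = (q2.primeFactors.card : ℝ) := ⟨_, rfl⟩
  have hW0 : 0 ≤ W := by rw [hW]; exact Nat.cast_nonneg _
  obtain ⟨Q, hQ⟩ : ∃ Q : ℝ, Q = Real.log q := ⟨_, rfl⟩
  rw [← hQ] at hQ0
  change _ < ((SS N q a).card : ℝ) at hbigs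
  rw [← hW] at hbigs
  rw [← hQ]
  obtain ⟨s, hs⟩ : ∃ s : ℝ, s = ((SS N q a).card : ℝ) := ⟨_, rfl⟩
  rw [← hs] at hbigs
  obtain ⟨Y, hY⟩ : ∃ Y : ℝ, Y = (N : ℝ) ^ (1 / 2 + ε) := ⟨_, rfl⟩
  rw [← hY] at hbigs
  have hY1 : 1 ≤ Y := by rw [hY]; exact Real.one_le_rpow hNr (by positivity)
  have hSN : s ≤ N := by
    have h1 : (SS N q a).card ≤ N := by
      calc (SS N q a).card ≤ (range N).card := card_filter_le _ _
        _ = N := card_range N
    rw [hs]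
    exact_mod_cast h1
  have hCY : C * Y ≤ C * (Y + W) := mul_le_mul_of_nonneg_left (by linarith) hC0.le
  have hCY1 : C ≤ C * Y := by nlinarith
  have hCW : C * W ≤ C * (Y + W) := mul_le_mul_of_nonneg_left (by linarith) hC0.le
  have hNN : N1 ≤ N := by
    by_contra h1
    push Not at h1
    have h2 : (N : ℝ) ≤ N1 := by exact_mod_cast h1.le
    linarith
  obtain ⟨ha, hb, hc, hd⟩ := hN1 N hNN
  have hr2 : r ^ 2 = N := by rw [hr]; exact Real.sq_sqrt hN0.le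
  have conc : Q ≤ K * N + 4 * Real.log q1 → Q ≤ C * ((N : ℝ) + Real.log q1) := by
    intro h1
    have h2 : K * N ≤ C * N := mul_le_mul_of_nonneg_right (by linarith) hN0.le
    have h3 : 4 * Real.log q1 ≤ C * Real.log q1 := mul_le_mul_of_nonneg_right (by linarith) hl10
    linarith
  by_cases hqN : q < N
  · apply conc
    have h4 : Real.log q ≤ q := by
      have := Real.log_le_sub_one_of_pos (show (0 : ℝ) < q by exact_mod_cast hq)
      linarith
    have h5 : (q : ℝ) ≤ N := by exact_mod_cast hqN.le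
    rw [hQ]
    nlinarith
  push Not at hqN
  apply conc
  have hbig : (N : ℝ) ^ (1 / 2 + η) ≤ (SS N q a).card := by
    rw [← hs]
    have h1 : (N : ℝ) ^ (1 / 2 + η) ≤ Y := by
      rw [hY]; exact Real.rpow_le_rpow_of_exponent_le hNr (by linarith)
    have h2 : Y ≤ C * Y := by
      have : 1 ≤ C := by rw [hC]; linarith
      nlinarith
    linarith
  have hWs : 16 * W ≤ s := by
    have : 16 * W ≤ C * W := mul_le_mul_of_nonneg_right (by rw [hC]; linarith) hW0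
    linarith
  obtain ⟨S, J, e, c, d, k, w, m, hD, hJS, hJ1, hTN⟩ := hA N q a ha hq hcop hbig
  obtain ⟨t, ht⟩ : ∃ t : ℝ, t = (J.card : ℝ) := ⟨_, rfl⟩
  have htN : (N : ℝ) ^ (1 / 2 + 3 / 4 * η) ≤ t := by
    have h1 : (N : ℝ) ^ (η / 4) * (N : ℝ) ^ (1 / 2 + 3 / 4 * η) ≤ (N : ℝ) ^ (η / 4) * t := by
      calc (N : ℝ) ^ (η / 4) * (N : ℝ) ^ (1 / 2 + 3 / 4 * η) = (N : ℝ) ^ (1 / 2 + η) := by
            rw [← Real.rpow_add hN0]; congr 1; ring
        _ ≤ _ := hbig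
        _ ≤ _ := by rw [ht]; exact hJ1
    exact le_of_mul_le_mul_left h1 (Real.rpow_pos_of_pos hN0 _)
  have hrh : r = (N : ℝ) ^ (1 / 2 : ℝ) := by rw [hr, Real.sqrt_eq_rpow]
  have htr : r ≤ t := by
    refine le_trans ?_ htN
    rw [hrh]
    exact Real.rpow_le_rpow_of_exponent_le hNr (by linarith)
  have ht0 : 0 < t := by linarith
  have hts : t ≤ s := by
    rw [ht, hs]
    exact_mod_cast card_le_card (hJS.trans hD.sub)
  -- parameters
  obtain ⟨A, hA'⟩ : ∃ A : ℝ, A = (N : ℝ) ^ δ := ⟨_, rfl⟩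
  rw [← hA'] at hb
  have hA0 : 0 < A := by linarith
  obtain ⟨ν, hν⟩ : ∃ ν : ℝ, ν = (N : ℝ) ^ (-δ) := ⟨_, rfl⟩
  have hν0 : 0 < ν := by rw [hν]; exact Real.rpow_pos_of_pos hN0 _
  have hνA : ν * A = 1 := by
    rw [hν, hA', ← Real.rpow_add hN0]; simp
  have hν1 : ν ≤ 1 / 256 := by nlinarith
  obtain ⟨ρ, hρ⟩ : ∃ ρ : ℝ, ρ = 32 * ν := ⟨_, rfl⟩
  have hρ0 : 0 < ρ := by rw [hρ]; positivity
  have hρ8 : ρ ≤ 1 / 8 := by rw [hρ]; linarith
  have hN256 : (256 : ℝ) ≤ N := by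
    refine hb.trans ?_
    rw [hA']
    calc (N : ℝ) ^ δ ≤ (N : ℝ) ^ (1 : ℝ) := Real.rpow_le_rpow_of_exponent_le hNr (by linarith)
      _ = N := Real.rpow_one _
  have hr16 : 16 ≤ r := by
    rw [hr]
    apply Real.le_sqrt_of_sq_le
    linarith
  have hνt : r ≤ ν * t := by
    rw [hrh]
    calc (N : ℝ) ^ (1 / 2 : ℝ) ≤ (N : ℝ) ^ (-δ + (1 / 2 + 3 / 4 * η)) :=
          Real.rpow_le_rpow_of_exponent_le hNr (by linarith)
      _ = ν * (N : ℝ) ^ (1 / 2 + 3 / 4 * η) := by rw [hν, Real.rpow_add hN0]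
      _ ≤ ν * t := mul_le_mul_of_nonneg_left htN hν0.le
  have hρt : 32 * r ≤ ρ * t := by rw [hρ]; linarith
  have hTN' : ((TN J d).card : ℝ) ≤ ν * (J.card : ℝ) ^ 4 := by
    refine le_trans hTN ?_
    apply mul_le_mul_of_nonneg_right _ (by positivity)
    rw [hν]
    exact Real.rpow_le_rpow_of_exponent_le hNr (by linarith)
  have hJ2 : 2 ≤ J.card := by
    have : (2 : ℝ) ≤ (J.card : ℝ) := by rw [← ht]; linarith
    exact_mod_cast this
  obtain ⟨x0, hx, y0, hy1, hxy, hNQ⟩ := hPG J d ν hJ2 hν0.le hTN'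
  have hNQ' : ((NQ J d x0 y0).card : ℝ) ≤ (2 * ν) * (J.card : ℝ) ^ 2 := hNQ
  have hsp := hSP2 N q a N S J e c d k w (2 * ν) ρ m x0 y0 hN hq hN hD hJS hx hy1 hxy hNQ' hρ0
    (by rw [hρ]; linarith) (by rw [← ht]; linarith) (by rw [← ht, ← hr]; linarith)
  obtain ⟨SP, hSPd⟩ : ∃ SP : Finset ℕ, SP = SPL q N J e ρ := ⟨_, rfl⟩
  rw [← hSPd, ← hr] at hsp
  have hsp2 : (SP.card : ℝ) ≤ t / 8 := by
    have h1 := m8_log N hN (η / 4) (by positivity)
    have e1 : 1 / (η / 4) = 4 / η := by field_simp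
    rw [e1] at h1
    refine hsp.trans ?_
    rw [div_le_iff₀ hρ0]
    have h2 : 25 * (1 + Real.log N) ≤ (N : ℝ) ^ (η / 2) := by
      have h3 : (N : ℝ) ^ (η / 2) = (N : ℝ) ^ (η / 4) * (N : ℝ) ^ (η / 4) := by
        rw [← Real.rpow_add hN0]; congr 1; ring
      rw [h3]
      have h4 : 0 ≤ (N : ℝ) ^ (η / 4) := Real.rpow_nonneg hN0.le _
      have h5 := mul_le_mul_of_nonneg_right hc h4
      linarith
    have h5 : (N : ℝ) ^ (η / 2) * r ≤ ν * t := by
      rw [hrh]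
      calc (N : ℝ) ^ (η / 2) * (N : ℝ) ^ (1 / 2 : ℝ) = (N : ℝ) ^ (η / 2 + 1 / 2) := by
            rw [Real.rpow_add hN0]
        _ ≤ (N : ℝ) ^ (-δ + (1 / 2 + 3 / 4 * η)) :=
            Real.rpow_le_rpow_of_exponent_le hNr (by linarith)
        _ = ν * (N : ℝ) ^ (1 / 2 + 3 / 4 * η) := by rw [hν, Real.rpow_add hN0]
        _ ≤ ν * t := mul_le_mul_of_nonneg_left htN hν0.le
    have h6 : 25 * (1 + Real.log N) * r ≤ ν * t :=
      le_trans (mul_le_mul_of_nonneg_right h2 (by linarith)) h5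
    rw [hρ]
    linarith
  -- the exceptional primes
  obtain ⟨V, hVd⟩ : ∃ V : Finset ℕ, V = SP ∪ (OP q).filter (fun p => p ∣ q2) := ⟨_, rfl⟩
  have hSPsub : SP ⊆ OP q := by
    intro p hp
    rw [hSPd, SPL, mem_filter, PP, mem_filter] at hp
    exact hp.1.1
  have hVsub : V ⊆ OP q := by
    rw [hVd]
    exact union_subset hSPsub (filter_subset _ _)
  have hVc : (V.card : ℝ) ≤ t / 8 + W := by
    have h1 : V.card ≤ SP.card + q2.primeFactors.card := by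
      rw [hVd]
      refine (card_union_le _ _).trans (Nat.add_le_add_left (card_le_card ?_) _)
      intro p hp
      obtain ⟨h2, h3⟩ := mem_filter.1 hp
      exact Nat.mem_primeFactors.2 ⟨(mem_OP h2).1, h3, by omega⟩
    have h2 : (V.card : ℝ) ≤ SP.card + q2.primeFactors.card := by exact_mod_cast h1
    rw [hW]
    linarith
  have hne : (SS N q a).Nonempty := by
    rw [← card_pos]
    have : (0 : ℝ) < ((SS N q a).card : ℝ) := by rw [← hs]; linarith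
    exact_mod_cast this
  obtain ⟨S', e', c', d', k', w', m', hS', hD'⟩ := hARR N q a hN hq hcop hne
  have hS'r : s ≤ 2 * (S'.card : ℝ) := by
    rw [hs]
    exact_mod_cast hS'
  have hVJ : 2 * (V.card + 1) ≤ S'.card := by
    have h1 : 2 * ((V.card : ℝ) + 1) ≤ (S'.card : ℝ) := by linarith
    exact_mod_cast h1
  have hw := t7_w hTR hGR N q a S' S' V e' c' d' k' w' m' hN hq hcop hD' (Subset.refl _) hVsub hVJ
  have hS'N : (S'.card : ℝ) ≤ N := by
    have h1 : S' ⊆ range N := fun n hn => by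
      have h2 := hD'.sub hn
      rw [SS, mem_filter] at h2
      exact h2.1
    have h3 := card_le_card h1
    rw [card_range] at h3
    exact_mod_cast h3
  -- the unsplit primes
  obtain ⟨U, hUd⟩ : ∃ U : Finset ℕ, U = (PP q N).filter (fun p => p ∉ SP) := ⟨_, rfl⟩
  have hUsub : U ⊆ OP q := by
    intro p hp
    rw [hUd, mem_filter, PP, mem_filter] at hp
    exact hp.1.1
  have hcov : OP q \ V ⊆ U ∪ (OP q).filter (fun l => l ∣ q1) := by
    intro p hp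
    obtain ⟨h1, h2⟩ := mem_sdiff.1 hp
    obtain ⟨hpp, -, hpd, -⟩ := mem_OP h1
    rw [hVd, mem_union, not_or] at h2
    rw [hqdef] at hpd
    rw [mem_union]
    rcases hpp.dvd_or_dvd hpd with h3 | h3
    · exact Or.inr (mem_filter.2 ⟨h1, h3⟩)
    · rcases hpp.dvd_or_dvd h3 with h4 | h4
      · refine Or.inl ?_
        rw [hUd, mem_filter, PP, mem_filter]
        exact ⟨⟨h1, hsm p hpp h4⟩, h2.1⟩
      · exact absurd (mem_filter.2 ⟨h1, h4⟩) h2.2
  obtain ⟨M, hMM⟩ : ∃ M : ℝ, M = ∑ l ∈ U, wt q l := ⟨_, rfl⟩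
  have hsumV : ∑ l ∈ OP q \ V, wt q l ≤ M + Real.log q1 := by
    calc ∑ l ∈ OP q \ V, wt q l ≤ ∑ l ∈ U ∪ (OP q).filter (fun l => l ∣ q1), wt q l :=
          sum_le_sum_of_subset_of_nonneg hcov fun l _ _ => wt_nonneg q l
      _ ≤ ∑ l ∈ U, wt q l + ∑ l ∈ (OP q).filter (fun l => l ∣ q1), wt q l := by
          have h1 := sum_union_inter (s₁ := U) (s₂ := (OP q).filter (fun l => l ∣ q1))
            (f := fun l => wt q l)
          have h2 : 0 ≤ ∑ l ∈ U ∩ (OP q).filter (fun l => l ∣ q1), wt q l :=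
            sum_nonneg fun l _ => wt_nonneg q l
          linarith
      _ ≤ M + Real.log q1 := by rw [← hMM]; linarith
  -- the fourth moment
  have hUU := hU N q a S J e c d k w m hN hq hcop hqN hD hJS
  have hlow : M * (t ^ 4 / 4) ≤ ∑ p ∈ OP q, wt q p * (∑ n ∈ J, (e n p : ℝ)) ^ 4 := by
    calc M * (t ^ 4 / 4) = ∑ p ∈ U, wt q p * (t ^ 4 / 4) := by rw [hMM, sum_mul]
      _ ≤ ∑ p ∈ U, wt q p * (∑ n ∈ J, (e n p : ℝ)) ^ 4 := by
          apply sum_le_sum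
          intro p hp
          apply mul_le_mul_of_nonneg_left _ (wt_nonneg q p)
          rw [hUd, mem_filter] at hp
          obtain ⟨hp1, hp2⟩ := hp
          have h1 : ((Sg J e p 1).card : ℝ) * ((Sg J e p (-1)).card : ℝ) <
              ρ * (J.card : ℝ) ^ 2 := by
            by_contra h2
            push Not at h2
            apply hp2
            rw [hSPd, SPL, mem_filter]
            exact ⟨hp1, h2⟩
          have h2 := m8_sum J e p ρ hD.dat.sgn hρ8 h1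
          rw [← ht] at h2
          exact h2
      _ ≤ ∑ p ∈ OP q, wt q p * (∑ n ∈ J, (e n p : ℝ)) ^ 4 := by
          apply sum_le_sum_of_subset_of_nonneg hUsub
          intro p _ _
          exact mul_nonneg (wt_nonneg q p) (by positivity)
  rw [← ht, ← hQ] at hUU
  rw [← hQ] at hw
  have hLN : 1 + Real.log N ≤ 3 * Real.sqrt N := by
    have h1 := m8_log N hN (1 / 2) (by norm_num)
    rw [Real.sqrt_eq_rpow]
    norm_num at h1 ⊢
    exact h1
  have hHH : HH N ≤ 3 * (1 + Real.log N) := by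
    unfold HH
    have h1 : Real.log 16 ≤ 3 := by
      have h2 : Real.log 16 = 4 * Real.log 2 := by
        rw [show (16 : ℝ) = 2 ^ 4 by norm_num, Real.log_pow]; norm_num
      have h3 := Real.log_two_lt_d9
      rw [h2]
      linarith
    linarith
  have hfin := t7_fin CU (1 + Real.log N) Q t M (Real.log q1) (HH N) N (S'.card : ℝ) hCU hQ0
    (by linarith)
    (by
      have h1 : (N : ℝ) ≤ t ^ 2 := by
        rw [← hr2]
        exact pow_le_pow_left₀ (by linarith) htr 2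
      linarith) ht0 hS'N hNr hLN hHH (hlow.trans hUU) (by linarith)
  rw [hK]
  exact hfin

theorem st_T7 (hLQ : ST_LQ2) (hM8 : Pool.Agent.Helper19.RD.ST_MAIN8) : ST_T7 := by
  classical
  intro ε hε
  obtain ⟨CL, hCL, hL⟩ := hLQ ε hε
  obtain ⟨C8, hM⟩ := hM8 ε hε
  obtain ⟨M8, hMd⟩ : ∃ M8 : ℝ, M8 = |C8| := ⟨_, rfl⟩
  have hM0 : 0 ≤ M8 := by rw [hMd]; exact abs_nonneg _
  obtain ⟨K, hK⟩ : ∃ K : ℝ, K = CL + 1 := ⟨_, rfl⟩
  have hK1 : 1 ≤ K := by rw [hK]; linarith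
  obtain ⟨C, hC⟩ : ∃ C : ℝ, C = CL + M8 * (1 + K) := ⟨_, rfl⟩
  have hMK : 0 ≤ M8 * (1 + K) := mul_nonneg hM0 (by linarith)
  have hC0 : 0 < C := by rw [hC]; linarith
  refine ⟨C, hC0, ?_⟩
  intro N q0 q1 q2 a hN hq0 hq1 hq2 hc01 hc2 hcop hsm
  have hNr : (1 : ℝ) ≤ N := by exact_mod_cast hN
  have hN0 : (0 : ℝ) < N := by linarith
  have hl10 : 0 ≤ Real.log q1 := Real.log_natCast_nonneg q1
  have hL1 := hL N q0 q1 q2 a hN hq0 hq1 hq2 hc01 hc2 hcop hsm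
  have hM1 := hM N (q0 * q1 * q2) a hN (Nat.mul_pos (Nat.mul_pos hq0 hq1) hq2) hcop
  have hQ0 : 0 ≤ Real.log ((q0 * q1 * q2 : ℕ) : ℝ) := Real.log_natCast_nonneg _
  obtain ⟨s, hs⟩ : ∃ s : ℝ, s =
    (((range N).filter (fun n => IsSquare (q0 * q1 * q2 * n + a))).card : ℝ) := ⟨_, rfl⟩
  rw [← hs] at hL1 hM1 ⊢
  obtain ⟨W, hW⟩ : ∃ W : ℝ, W = (q2.primeFactors.card : ℝ) := ⟨_, rfl⟩
  have hW0 : 0 ≤ W := by rw [hW]; exact Nat.cast_nonneg _
  rw [← hW] at hL1 ⊢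
  obtain ⟨r, hr⟩ : ∃ r : ℝ, r = Real.sqrt N := ⟨_, rfl⟩
  have hr1 : 1 ≤ r := by rw [hr, Real.one_le_sqrt]; exact hNr
  have hr2 : r ^ 2 = N := by rw [hr]; exact Real.sq_sqrt hN0.le
  obtain ⟨E, hE⟩ : ∃ E : ℝ, E = (N : ℝ) ^ ε := ⟨_, rfl⟩
  have hE1 : 1 ≤ E := by rw [hE]; exact Real.one_le_rpow hNr hε.le
  obtain ⟨X, hX⟩ : ∃ X : ℝ, X = Real.log q1 ^ (1 / 4 : ℝ) := ⟨_, rfl⟩
  have hX0 : 0 ≤ X := by rw [hX]; exact Real.rpow_nonneg hl10 _
  have hX4 : X ^ 4 = Real.log q1 := by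
    rw [hX, ← Real.rpow_natCast, ← Real.rpow_mul hl10]
    norm_num
  obtain ⟨Q, hQ⟩ : ∃ Q : ℝ, Q = Real.log ((q0 * q1 * q2 : ℕ) : ℝ) := ⟨_, rfl⟩
  rw [← hQ] at hL1 hM1 hQ0
  obtain ⟨g, hg⟩ : ∃ g : ℝ, g = Q ^ (1 / 4 : ℝ) := ⟨_, rfl⟩
  have hg0 : 0 ≤ g := by rw [hg]; exact Real.rpow_nonneg hQ0 _
  have hg4 : g ^ 4 = Q := by
    rw [hg, ← Real.rpow_natCast, ← Real.rpow_mul hQ0]
    norm_num
  rw [← hr, ← hE, ← hg] at hM1
  rw [← hr, ← hE, ← hX]
  have hYr : (N : ℝ) ^ (1 / 2 + ε) = E * r := by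
    rw [hE, hr, Real.sqrt_eq_rpow, ← Real.rpow_add hN0]
    congr 1
    ring
  rw [hYr] at hL1
  have hs8 : s ≤ M8 * E * (r + g) := by
    refine le_trans hM1 ?_
    rw [hMd]
    apply mul_le_mul_of_nonneg_right _ (by linarith)
    exact mul_le_mul_of_nonneg_right (le_abs_self _) (by linarith)
  by_cases hbig : CL * (E * r + W) < s
  · have hQb := hL1 hbig
    have h1 : g ≤ K * (r + X) := by
      have h2 : g ^ 4 ≤ (K * (r + X)) ^ 4 := by
        rw [hg4]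
        have h3 : (r + X) ^ 4 = r ^ 4 + X ^ 4 +
            (4 * r ^ 3 * X + 6 * r ^ 2 * X ^ 2 + 4 * r * X ^ 3) := by ring
        have h4 : 0 ≤ 4 * r ^ 3 * X + 6 * r ^ 2 * X ^ 2 + 4 * r * X ^ 3 := by positivity
        have h5 : (N : ℝ) ≤ r ^ 4 := by
          rw [show r ^ 4 = r ^ 2 * r ^ 2 by ring, hr2]
          nlinarith
        have h6 : (N : ℝ) + Real.log q1 ≤ (r + X) ^ 4 := by
          rw [h3, hX4]
          linarith
        have h7 : K ≤ K ^ 4 := le_self_pow₀ hK1 (by norm_num)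
        calc Q ≤ CL * ((N : ℝ) + Real.log q1) := hQb
          _ ≤ K * ((N : ℝ) + Real.log q1) :=
              mul_le_mul_of_nonneg_right (by linarith) (by linarith)
          _ ≤ K ^ 4 * (r + X) ^ 4 := mul_le_mul h7 h6 (by linarith) (by positivity)
          _ = (K * (r + X)) ^ 4 := by ring
      exact le_of_pow_le_pow_left₀ (by norm_num) (by positivity) h2
    calc s ≤ M8 * E * (r + g) := hs8
      _ ≤ M8 * E * ((1 + K) * (r + X)) := by
          apply mul_le_mul_of_nonneg_left _ (by positivity)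
          linarith
      _ = M8 * (1 + K) * (E * (r + X)) := by ring
      _ ≤ C * (E * (r + X)) := by
          apply mul_le_mul_of_nonneg_right _ (by positivity)
          rw [hC]; linarith
      _ ≤ C * (E * (r + X) + W) := mul_le_mul_of_nonneg_left (by linarith) hC0.le
  · push Not at hbig
    have h1 : E * r + W ≤ E * (r + X) + W := by
      have : 0 ≤ E * X := by positivity
      linarith
    calc s ≤ CL * (E * r + W) := hbig
      _ ≤ CL * (E * (r + X) + W) := mul_le_mul_of_nonneg_left h1 hCL.le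
      _ ≤ C * (E * (r + X) + W) := by
          apply mul_le_mul_of_nonneg_right _ (by positivity)
          rw [hC]; linarith

end Pool.Agent.Helper83.RD8
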