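import Pool.Agent.Helper19.RD.Stmts8
import Pool.Agent.Helper83.RU.UnsSg

/-!
# Row UNS of project RD8 (helper83): the fourth moment of the signs
-/

namespace Pool.Agent.Helper19.RD

open Finset Pool.Agent.Helper18.RD

theorem st_UNS : ST_UNS := by
  classical
  refine ⟨384, by norm_num, ?_⟩
  intro N q a S J e c d k w m hN hq hco _ hD hJ
  obtain ⟨b, hb, he, -⟩ := hD.sg
  have hsub : J ⊆ SS (N + 1) q a := by
    intro n hn
    have h1 := hD.sub (hJ hn)
    obtain ⟨h2, h3⟩ := mem_filter.1 h1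
    exact mem_filter.2 ⟨mem_range.2 ((mem_range.1 h2).trans (Nat.lt_succ_self N)), h3⟩
  have h := Pool.Agent.Helper83.RU.UnsSg.uns 2 (N + 1) q a b J (by norm_num) (by omega) hq hco hb
    hsub
  have hNR : (1 : ℝ) ≤ N := by exact_mod_cast hN
  have hlN : 0 ≤ Real.log N := Real.log_nonneg hNR
  have hlq : 0 ≤ Real.log q := Real.log_natCast_nonneg _
  have hlog : Real.log (2 * ((N + 1 : ℕ) : ℝ)) ≤ 4 * (1 + Real.log N) := by
    have h1 : Real.log (2 * ((N + 1 : ℕ) : ℝ)) ≤ Real.log (4 * (N : ℝ)) := by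
      apply Real.log_le_log (by positivity)
      push_cast
      linarith
    have h3 : Real.log (4 * (N : ℝ)) = Real.log 4 + Real.log N :=
      Real.log_mul (by norm_num) (by positivity)
    have h2 : Real.log 4 ≤ 4 - 1 := Real.log_le_sub_one_of_pos (by norm_num)
    linarith
  have hsq : √(Real.log q * Real.log (2 * ((N + 1 : ℕ) : ℝ))) ≤
      2 * √(Real.log q * (1 + Real.log N)) := by
    have h1 : Real.log q * Real.log (2 * ((N + 1 : ℕ) : ℝ)) ≤
        2 ^ 2 * (Real.log q * (1 + Real.log N)) := by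
      have := mul_le_mul_of_nonneg_left hlog hlq
      linarith
    calc _ ≤ √(2 ^ 2 * (Real.log q * (1 + Real.log N))) := Real.sqrt_le_sqrt h1
      _ = _ := by
        rw [Real.sqrt_mul (by positivity), Real.sqrt_sq (by norm_num)]
  have heq : ∑ p ∈ OP q, wt q p * (∑ n ∈ J, (e n p : ℝ)) ^ 4 =
      ∑ l ∈ OP q, wt q l * ((∑ n ∈ J, Pool.Agent.Helper18.RD.sg q a b n l : ℤ) : ℝ) ^ (2 * 2) := by
    refine sum_congr rfl fun p _ => ?_
    have h1 : ∑ n ∈ J, (e n p : ℝ) =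
        ((∑ n ∈ J, Pool.Agent.Helper18.RD.sg q a b n p : ℤ) : ℝ) := by
      push_cast
      exact sum_congr rfl fun n _ => by rw [he]
    rw [h1]
  rw [heq]
  refine h.trans ?_
  have hJ2 : (0 : ℝ) ≤ (J.card : ℝ) ^ 2 := by positivity
  have hJ4 : (0 : ℝ) ≤ (J.card : ℝ) ^ 4 := by positivity
  have h1 : (J.card : ℝ) ^ 4 * √(Real.log q * Real.log (2 * ((N + 1 : ℕ) : ℝ))) ≤
      (J.card : ℝ) ^ 4 * (2 * √(Real.log q * (1 + Real.log N))) :=
    mul_le_mul_of_nonneg_left hsq hJ4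
  have h2 : 0 ≤ (J.card : ℝ) ^ 2 * Real.log q := mul_nonneg hJ2 hlq
  norm_num at h1 h2 ⊢
  nlinarith

end Pool.Agent.Helper19.RD
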