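import Pool.Agent.Helper19.RD.Stmts9
import Pool.Agent.Helper19.RD.PL

/-!
# Row VLB of project RD8 (helper83, second source): most primes in the range divide `q`
-/

namespace Pool.Agent.Helper19.RD

open Finset Pool.Agent.Helper18.RD

theorem vlb83_step (y : ℕ) (hy : 1 ≤ y) (b g : ℝ) (hg : g ≤ b * √(y : ℝ)) (hb : 0 ≤ b) :
    g * (1 / (y : ℝ) - 1 / ((y : ℝ) + 1)) ≤ 2 * b * (1 / √(y : ℝ) - 1 / √((y : ℝ) + 1)) := by
  have hy1 : (1 : ℝ) ≤ y := by exact_mod_cast hy
  set u := √(y : ℝ) with hu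
  set w := √((y : ℝ) + 1) with hw
  have hu2 : u ^ 2 = y := Real.sq_sqrt (by linarith)
  have hw2 : w ^ 2 = (y : ℝ) + 1 := Real.sq_sqrt (by linarith)
  have hup : 0 < u := Real.sqrt_pos.2 (by linarith)
  have hwp : 0 < w := Real.sqrt_pos.2 (by linarith)
  have huw : u ≤ w := Real.sqrt_le_sqrt (by linarith)
  have e1 : 1 / (y : ℝ) - 1 / ((y : ℝ) + 1) = 1 / (u ^ 2 * w ^ 2) := by
    rw [hu2, hw2]
    field_simp
    ring
  have e2 : 1 / u - 1 / w = (w - u) / (u * w) := by
    field_simp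
  have h1 : 1 / (2 * w) ≤ w - u := by
    rw [div_le_iff₀ (by positivity)]
    nlinarith
  have h2 : g * (1 / (u ^ 2 * w ^ 2)) ≤ b * u * (1 / (u ^ 2 * w ^ 2)) :=
    mul_le_mul_of_nonneg_right hg (by positivity)
  have h3 : b * u * (1 / (u ^ 2 * w ^ 2)) = 2 * b * (1 / (2 * w) / (u * w)) := by
    field_simp
  have h4 : 1 / (2 * w) / (u * w) ≤ (w - u) / (u * w) :=
    div_le_div_of_nonneg_right h1 (by positivity)
  rw [e1, e2]
  calc _ ≤ _ := h2
    _ = _ := h3
    _ ≤ _ := mul_le_mul_of_nonneg_left h4 (by positivity)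

theorem vlb83_sum (B : Finset ℕ) (z x : ℕ) (b : ℝ) (hz : 1 ≤ z) (hb : 0 ≤ b)
    (hB : ∀ p ∈ B, z < p ∧ p ≤ x)
    (hc : ∀ y : ℕ, z < y → y ≤ x → ((B.filter (fun p => p ≤ y)).card : ℝ) ≤ b * √(y : ℝ)) :
    ∑ p ∈ B, (1 : ℝ) / p ≤ 2 * b / √(z : ℝ) := by
  classical
  have hzp : (0 : ℝ) < z := by exact_mod_cast hz
  have hsz : 0 < √(z : ℝ) := Real.sqrt_pos.2 hzp
  have key : ∀ y : ℕ, z ≤ y → y ≤ x →
      ∑ p ∈ B.filter (fun p => p ≤ y), (1 : ℝ) / p ≤
        ((B.filter (fun p => p ≤ y)).card : ℝ) / y + b * (2 / √(z : ℝ) - 2 / √(y : ℝ)) := by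
    intro y hy
    induction y, hy using Nat.le_induction with
    | base =>
      intro _
      have h0 : B.filter (fun p => p ≤ z) = ∅ := by
        refine filter_eq_empty_iff.2 fun p hp => ?_
        have := (hB p hp).1
        omega
      rw [h0]
      simp
    | succ y hy ih =>
      intro hyx
      have ih' := ih (by omega)
      have hy1 : 1 ≤ y := by omega
      have hyR : (0 : ℝ) < y := by exact_mod_cast hy1
      have hcount : ((B.filter (fun p => p ≤ y)).card : ℝ) ≤ b * √(y : ℝ) := by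
        rcases Nat.lt_or_ge z y with h | h
        · exact hc y h (by omega)
        · have h0 : B.filter (fun p => p ≤ y) = ∅ := by
            refine filter_eq_empty_iff.2 fun p hp => ?_
            have := (hB p hp).1
            omega
          rw [h0]
          simp only [card_empty, Nat.cast_zero]
          positivity
      have hstep := vlb83_step y hy1 b _ hcount hb
      have hsplit : B.filter (fun p => p ≤ y + 1) =
          B.filter (fun p => p ≤ y) ∪ B.filter (fun p => p = y + 1) := by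
        ext p
        simp only [mem_filter, mem_union]
        constructor
        · rintro ⟨h1, h2⟩
          rcases Nat.lt_or_ge p (y + 1) with h | h
          · exact Or.inl ⟨h1, by omega⟩
          · exact Or.inr ⟨h1, by omega⟩
        · rintro (⟨h1, h2⟩ | ⟨h1, h2⟩)
          · exact ⟨h1, by omega⟩
          · exact ⟨h1, by omega⟩
      have hdisj : Disjoint (B.filter (fun p => p ≤ y)) (B.filter (fun p => p = y + 1)) := by
        rw [disjoint_left]
        intro p h1 h2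
        have h3 := (mem_filter.1 h1).2
        have h4 := (mem_filter.1 h2).2
        omega
      have hlast : ∑ p ∈ B.filter (fun p => p = y + 1), (1 : ℝ) / p =
          ((B.filter (fun p => p = y + 1)).card : ℝ) * (1 / ((y : ℝ) + 1)) := by
        rw [← nsmul_eq_mul, ← sum_const]
        refine sum_congr rfl fun p hp => ?_
        rw [(mem_filter.1 hp).2]
        push_cast
        rfl
      rw [hsplit, sum_union hdisj, card_union_of_disjoint hdisj, hlast]
      push_cast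
      have e1 : ((B.filter (fun p => p ≤ y)).card : ℝ) / y =
          ((B.filter (fun p => p ≤ y)).card : ℝ) * (1 / (y : ℝ)) := by ring
      rw [e1] at ih'
      have e2 : (((B.filter (fun p => p ≤ y)).card : ℝ) +
          ((B.filter (fun p => p = y + 1)).card : ℝ)) / ((y : ℝ) + 1) =
          ((B.filter (fun p => p ≤ y)).card : ℝ) * (1 / ((y : ℝ) + 1)) +
          ((B.filter (fun p => p = y + 1)).card : ℝ) * (1 / ((y : ℝ) + 1)) := by ring
      rw [e2]
      have e3 : 2 / √(y : ℝ) = 2 * (1 / √(y : ℝ)) := by ring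
      have e4 : 2 / √((y : ℝ) + 1) = 2 * (1 / √((y : ℝ) + 1)) := by ring
      rw [e3] at ih'
      rw [e4]
      linarith
  rcases Nat.lt_or_ge z x with hzx | hzx
  · have h := key x hzx.le le_rfl
    have hall : B.filter (fun p => p ≤ x) = B :=
      filter_true_of_mem fun p hp => (hB p hp).2
    have h2 := hc x hzx le_rfl
    rw [hall] at h h2
    have hxR : (0 : ℝ) < x := by
      have : 0 < x := by omega
      exact_mod_cast this
    have hsx : 0 < √(x : ℝ) := Real.sqrt_pos.2 hxR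
    have h3 : (B.card : ℝ) / x ≤ b / √(x : ℝ) := by
      rw [div_le_div_iff₀ hxR hsx]
      have h4 : √(x : ℝ) * √(x : ℝ) = x := Real.mul_self_sqrt hxR.le
      calc (B.card : ℝ) * √(x : ℝ) ≤ (b * √(x : ℝ)) * √(x : ℝ) :=
            mul_le_mul_of_nonneg_right h2 hsx.le
        _ = b * x := by rw [mul_assoc, h4]
    have h5 : b / √(x : ℝ) ≤ b * (2 / √(x : ℝ)) := by
      have : 0 ≤ b / √(x : ℝ) := by positivity
      have e : b * (2 / √(x : ℝ)) = 2 * (b / √(x : ℝ)) := by ring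
      rw [e]
      linarith
    calc _ ≤ _ := h
      _ ≤ b * (2 / √(x : ℝ)) + b * (2 / √(z : ℝ) - 2 / √(x : ℝ)) := by linarith
      _ = 2 * b / √(z : ℝ) := by ring
  · have h0 : B = ∅ := by
      refine eq_empty_of_forall_notMem fun p hp => ?_
      have := hB p hp
      omega
    rw [h0]
    simp only [sum_empty]
    positivity

theorem vlb83_low (x z : ℕ) (hx : 3 ≤ x) :
    1 / (10 * Real.log x) - z / x ≤
      ∑ p ∈ (Icc (z + 1) x).filter (fun p => p.Prime), (1 : ℝ) / p := by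
  classical
  have hxR : (0 : ℝ) < x := by
    have : 0 < x := by omega
    exact_mod_cast this
  have h1 := pl_pi x hx
  have h2 : Nat.primeCounting x ≤ z + ((Icc (z + 1) x).filter (fun p => p.Prime)).card := by
    have h3 : Nat.primeCounting x = ((range (x + 1)).filter Nat.Prime).card := by
      rw [Nat.primeCounting, Nat.primeCounting', Nat.count_eq_card_filter_range]
    rw [h3]
    have hsub : (range (x + 1)).filter Nat.Prime ⊆
        (Icc 1 z) ∪ (Icc (z + 1) x).filter (fun p => p.Prime) := by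
      intro p hp
      obtain ⟨hp1, hp2⟩ := mem_filter.1 hp
      rw [mem_range] at hp1
      rw [mem_union]
      rcases Nat.lt_or_ge z p with h | h
      · exact Or.inr (mem_filter.2 ⟨mem_Icc.2 ⟨by omega, by omega⟩, hp2⟩)
      · exact Or.inl (mem_Icc.2 ⟨hp2.one_lt.le, h⟩)
    refine (card_le_card hsub).trans ((card_union_le _ _).trans ?_)
    rw [Nat.card_Icc]
    omega
  have h3 : ((((Icc (z + 1) x).filter (fun p => p.Prime)).card : ℕ) : ℝ) * (1 / (x : ℝ)) ≤
      ∑ p ∈ (Icc (z + 1) x).filter (fun p => p.Prime), (1 : ℝ) / p := by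
    rw [← nsmul_eq_mul]
    refine card_nsmul_le_sum _ _ _ fun p hp => ?_
    obtain ⟨hp1, hp2⟩ := mem_filter.1 hp
    obtain ⟨hp3, hp4⟩ := mem_Icc.1 hp1
    have hpp : (0 : ℝ) < p := by exact_mod_cast hp2.pos
    exact one_div_le_one_div_of_le hpp (by exact_mod_cast hp4)
  have h4 : (Nat.primeCounting x : ℝ) ≤ z +
      (((Icc (z + 1) x).filter (fun p => p.Prime)).card : ℕ) := by exact_mod_cast h2
  have h5 : (x : ℝ) / (10 * Real.log x) = x * (1 / (10 * Real.log x)) := by ring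
  rw [h5] at h1
  refine le_trans ?_ h3
  have h6 : x * (1 / (10 * Real.log x)) - z ≤
      (((Icc (z + 1) x).filter (fun p => p.Prime)).card : ℕ) := by linarith
  have h7 : (x * (1 / (10 * Real.log x)) - z) * (1 / (x : ℝ)) ≤
      ((((Icc (z + 1) x).filter (fun p => p.Prime)).card : ℕ) : ℝ) * (1 / (x : ℝ)) :=
    mul_le_mul_of_nonneg_right h6 (by positivity)
  have h8 : (x * (1 / (10 * Real.log x)) - z) * (1 / (x : ℝ)) =
      1 / (10 * Real.log x) - z / x := by
    field_simp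
  rw [← h8]
  exact h7

theorem vlb83_har (U : Finset ℕ) (x : ℕ) (hU : ∀ p ∈ U, 1 ≤ p ∧ p ≤ x) :
    ∑ p ∈ U, (1 : ℝ) / p ≤ 1 + Real.log x := by
  classical
  have h1 : ∑ p ∈ U, (1 : ℝ) / p ≤ ∑ p ∈ Icc 1 x, (1 : ℝ) / p := by
    refine sum_le_sum_of_subset_of_nonneg (fun p hp => mem_Icc.2 (hU p hp)) fun p _ _ => ?_
    positivity
  have h2 := harmonic_le_one_add_log x
  rw [harmonic_eq_sum_Icc] at h2
  push_cast at h2
  have h3 : ∑ p ∈ Icc 1 x, (1 : ℝ) / p = ∑ i ∈ Icc 1 x, ((i : ℝ))⁻¹ :=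
    sum_congr rfl fun p _ => one_div _
  rw [h3] at h1
  exact h1.trans h2

theorem st_VLB (hNPB : ST_NPB) (hPAR : ST_PAR) : ST_VLB := by
  classical
  intro ε hε
  obtain ⟨C, κ, hC, hκ, hnp⟩ := hNPB
  obtain ⟨N1, hN1⟩ := hPAR (2 * C + 1000) (κ + 1) ε (by positivity) (by positivity) hε
  obtain ⟨N2, hN2⟩ := hPAR (2 * C + 1000) (κ + 1) (1 / 22) (by positivity) (by positivity)
    (by norm_num)
  refine ⟨1 / 2, max N1 N2, by norm_num, ?_⟩
  intro N q a hN hq hco hS
  obtain ⟨hN0, -, hz2, hAx, hzx, hlogz, -, -, -, hAz, -, hx1, hx2, hAε, -⟩ :=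
    hN1 N ((le_max_left _ _).trans hN)
  obtain ⟨-, -, -, -, -, -, -, -, -, -, -, -, -, hA22, -⟩ := hN2 N ((le_max_right _ _).trans hN)
  set z := zN N with hz
  set x := xN N with hx
  set L1 := 1 + Real.log N with hL1
  have hNR : (1 : ℝ) ≤ N := by exact_mod_cast hN0
  have hlN : 0 ≤ Real.log N := Real.log_nonneg hNR
  have hL1' : 1 ≤ L1 := by linarith
  have hL1p : 0 < L1 := by linarith
  have hpow1 : L1 ^ κ ≤ L1 ^ (κ + 1) := Real.rpow_le_rpow_of_exponent_le hL1' (by linarith)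
  have hpow2 : L1 ≤ L1 ^ (κ + 1) := by
    calc L1 = L1 ^ (1 : ℝ) := (Real.rpow_one _).symm
      _ ≤ L1 ^ (κ + 1) := Real.rpow_le_rpow_of_exponent_le hL1' (by linarith)
  have hpow3 : 1 ≤ L1 ^ κ := Real.one_le_rpow hL1' hκ.le
  have hxR1 : (1000 : ℝ) ≤ x := by linarith
  have hxpos : (0 : ℝ) < x := by linarith
  have hx3 : 3 ≤ x := by
    have : (3 : ℝ) ≤ (x : ℝ) := by linarith
    exact_mod_cast this
  have hz2R : (2 : ℝ) ≤ z := by exact_mod_cast hz2
  have hzpos : (0 : ℝ) < z := by linarith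
  have hxs : (x : ℝ) ≤ √(N : ℝ) := by
    rw [Real.sqrt_eq_rpow]
    exact hx2.trans (Real.rpow_le_rpow_of_exponent_le hNR (by norm_num))
  have hxN : (x : ℝ) ≤ N := hx2.trans (by
    calc (N : ℝ) ^ (1 / 10 : ℝ) ≤ (N : ℝ) ^ (1 : ℝ) :=
          Real.rpow_le_rpow_of_exponent_le hNR (by norm_num)
      _ = N := Real.rpow_one _)
  -- counting the primes which do not divide `q`
  have hcount : ∀ y : ℕ, 1 ≤ y → y ≤ x → ((NP q y).card : ℝ) ^ 2 ≤ C * L1 ^ κ * y := by
    intro y hy1 hyx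
    refine hnp N q a y hN0 hq hy1 hco ?_
    have hyR : (y : ℝ) ≤ √(N : ℝ) := le_trans (by exact_mod_cast hyx) hxs
    calc C * L1 ^ κ * (√(N : ℝ) + y) ≤ C * L1 ^ κ * (2 * √(N : ℝ)) :=
          mul_le_mul_of_nonneg_left (by linarith) (by positivity)
      _ = (2 * C * L1 ^ κ) * √(N : ℝ) := by ring
      _ ≤ (N : ℝ) ^ ε * √(N : ℝ) := by
          refine mul_le_mul_of_nonneg_right ?_ (Real.sqrt_nonneg _)
          refine le_trans ?_ hAε
          have : 0 ≤ L1 ^ (κ + 1) := by positivity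
          nlinarith
      _ = (N : ℝ) ^ (1 / 2 + ε) := by
          rw [Real.sqrt_eq_rpow, ← Real.rpow_add (by linarith)]
          congr 1
          ring
      _ ≤ _ := hS
  set b := √(C * L1 ^ κ) with hb
  have hb0 : 0 ≤ b := Real.sqrt_nonneg _
  set B := (Icc (z + 1) x).filter (fun p => p.Prime ∧ ¬ p ∣ q) with hB
  have hsumB : ∑ p ∈ B, (1 : ℝ) / p ≤ 2 * b / √(z : ℝ) := by
    refine vlb83_sum B z x b (by omega) hb0 ?_ ?_
    · intro p hp
      obtain ⟨h1, -⟩ := mem_filter.1 hp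
      obtain ⟨h2, h3⟩ := mem_Icc.1 h1
      exact ⟨by omega, h3⟩
    · intro y hzy hyx
      have h1 := hcount y (by omega) hyx
      have hsub : B.filter (fun p => p ≤ y) ⊆ NP q y := by
        intro p hp
        obtain ⟨h2, h3⟩ := mem_filter.1 hp
        obtain ⟨h4, h5, h6⟩ := mem_filter.1 h2
        obtain ⟨h7, h8⟩ := mem_Icc.1 h4
        exact mem_filter.2 ⟨mem_Icc.2 ⟨by omega, h3⟩, h5, by omega, h6⟩
      have h2 : ((B.filter (fun p => p ≤ y)).card : ℝ) ≤ (NP q y).card := by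
        exact_mod_cast card_le_card hsub
      have h3 : ((NP q y).card : ℝ) ≤ b * √(y : ℝ) := by
        rw [hb, ← Real.sqrt_mul (by positivity)]
        exact Real.le_sqrt_of_sq_le h1
      exact h2.trans h3
  have h2b : 2 * b ≤ (z : ℝ) ^ (1 / 4 : ℝ) := by
    refine le_trans ?_ hAz
    have h1 : b ^ 2 = C * L1 ^ κ := Real.sq_sqrt (by positivity)
    have h2 : 2 * b ≤ 1 + b ^ 2 := by nlinarith [sq_nonneg (b - 1)]
    rw [h1] at h2
    have h3 : 0 ≤ L1 ^ (κ + 1) := by positivity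
    nlinarith
  have hbad : ∑ p ∈ B, (1 : ℝ) / p ≤ (z : ℝ) ^ (-(1 / 4) : ℝ) := by
    refine hsumB.trans ?_
    calc 2 * b / √(z : ℝ) ≤ (z : ℝ) ^ (1 / 4 : ℝ) / √(z : ℝ) :=
          div_le_div_of_nonneg_right h2b (Real.sqrt_nonneg _)
      _ = (z : ℝ) ^ (-(1 / 4) : ℝ) := by
          rw [Real.sqrt_eq_rpow, ← Real.rpow_sub hzpos]
          norm_num
  -- the sum over all primes
  have hmem : UN N q = ((Icc (z + 1) x).filter (fun p => p.Prime)).filter (fun p => p ∣ q) := by
    ext p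
    unfold UN OP
    simp only [mem_filter, mem_erase, mem_Icc, Nat.mem_primeFactors]
    constructor
    · rintro ⟨⟨h1, h2, h3, h4⟩, h5, h6⟩
      exact ⟨⟨⟨by omega, h6⟩, h2⟩, h3⟩
    · rintro ⟨⟨⟨h1, h2⟩, h3⟩, h4⟩
      exact ⟨⟨by omega, h3, h4, by omega⟩, by omega, h2⟩
  have hBeq : B = ((Icc (z + 1) x).filter (fun p => p.Prime)).filter (fun p => ¬ p ∣ q) := by
    rw [hB, filter_filter]
  have hsplit : ∑ p ∈ (Icc (z + 1) x).filter (fun p => p.Prime), (1 : ℝ) / p =
      VV (UN N q) + ∑ p ∈ B, (1 : ℝ) / p := by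
    rw [VV, hmem, hBeq, sum_filter_add_sum_filter_not]
  have hlow := vlb83_low x z hx3
  rw [hsplit] at hlow
  have hlx : 0 < Real.log x := Real.log_pos (by linarith)
  have hlxN : Real.log x ≤ 1 / 10 * Real.log N := by
    have h1 := Real.log_le_log hxpos hx2
    rwa [Real.log_rpow (by linarith)] at h1
  have h10 : 1 / L1 ≤ 1 / (10 * Real.log x) :=
    one_div_le_one_div_of_le (by positivity) (by linarith)
  have hAL : 1000 * L1 ≤ (2 * C + 1000) * L1 ^ (κ + 1) := by
    have : 0 ≤ L1 ^ (κ + 1) := by positivity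
    nlinarith
  have hz4 : (z : ℝ) ^ (-(1 / 4) : ℝ) ≤ 1 / (1000 * L1) := by
    rw [Real.rpow_neg hzpos.le, ← one_div]
    exact one_div_le_one_div_of_le (by positivity) (hAL.trans hAz)
  have hzx2 : (z : ℝ) ^ 2 ≤ x := by
    have h1 : Real.log 2 ≤ Real.log z := Real.log_le_log (by norm_num) hz2R
    have h2 : (0.6931471803 : ℝ) < Real.log 2 := Real.log_two_gt_d9
    have h3 : 2 * Real.log z ≤ Real.log x := by nlinarith
    have h4 : Real.log ((z : ℝ) ^ 2) ≤ Real.log x := by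
      rw [Real.log_pow]
      exact_mod_cast h3
    exact (Real.log_le_log_iff (by positivity) hxpos).1 h4
  have hzx3 : (z : ℝ) / x ≤ 1 / (1000 * L1) := by
    have h1 : (N : ℝ) ^ (1 / 22 : ℝ) ≤ √(x : ℝ) := by
      have h2 : (N : ℝ) ^ (1 / 22 : ℝ) = √((N : ℝ) ^ (1 / 11 : ℝ)) := by
        rw [Real.sqrt_eq_rpow, ← Real.rpow_mul (by linarith)]
        norm_num
      rw [h2]
      exact Real.sqrt_le_sqrt hx1
    have h3 : 1000 * L1 ≤ √(x : ℝ) := hAL.trans (hA22.trans h1)
    have hsx : 0 < √(x : ℝ) := Real.sqrt_pos.2 hxpos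
    have h4 : (z : ℝ) ≤ √(x : ℝ) := Real.le_sqrt_of_sq_le hzx2
    calc (z : ℝ) / x ≤ √(x : ℝ) / x := div_le_div_of_nonneg_right h4 hxpos.le
      _ = 1 / √(x : ℝ) := by
          rw [div_eq_div_iff hxpos.ne' hsx.ne', one_mul]
          exact Real.mul_self_sqrt hxpos.le
      _ ≤ 1 / (1000 * L1) := one_div_le_one_div_of_le (by positivity) h3
  refine ⟨?_, ?_, hbad⟩
  · have h1 : 1 / 2 / L1 = (1 / 2) * (1 / L1) := by ring
    have h2 : 1 / (1000 * L1) = (1 / 1000) * (1 / L1) := by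
      field_simp
    rw [h1]
    rw [h2] at hz4 hzx3
    have h3 : 0 < 1 / L1 := by positivity
    linarith
  · have h1 : VV (UN N q) ≤ 1 + Real.log x := by
      refine vlb83_har _ x fun p hp => ?_
      rw [hmem] at hp
      obtain ⟨h2, -⟩ := mem_filter.1 hp
      obtain ⟨h3, h4⟩ := mem_filter.1 h2
      obtain ⟨h5, h6⟩ := mem_Icc.1 h3
      exact ⟨by omega, h6⟩
    have h2 : Real.log x ≤ Real.log N := Real.log_le_log hxpos hxN
    linarith

end Pool.Agent.Helper19.RD
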