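import Pool.Agent.Helper83.RD8.Stmts13
import Pool.Agent.Helper39.RD8.MAIN8

/-! Project RD (rd8), row MAIN13 (copy of `Helper73/RD8/MAIN11.lean` with moments of order `2 j`). -/

set_option autoImplicit false

namespace Pool.Agent.Helper83.RD8

open Finset Pool.Agent.Helper18.RD Pool.Agent.Helper19.RD Pool.Agent.Helper97.RD8
open Pool.Agent.Helper39.RD8

lemma m13_alg (j : ℕ) (CU L Q t ν y : ℝ) (hCU : 0 < CU) (ht : 0 < t)
    (h : (ν * y / 2) * (t ^ (2 * j) / 2 ^ j) ≤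
      CU * (t ^ j * Q + t ^ (2 * j) * Real.sqrt (Q * L))) :
    ν * y * t ^ j ≤ 2 ^ (j + 2) * CU * Q ∨ ν * y ≤ 2 ^ (j + 2) * CU * Real.sqrt (Q * L) := by
  by_contra hcon
  rw [not_or] at hcon
  obtain ⟨h1, h2⟩ := hcon
  push Not at h1 h2
  have e0 : t ^ (2 * j) = t ^ j * t ^ j := by rw [← pow_add]; congr 1; ring
  have e5 : (2 : ℝ) ^ (j + 2) = 4 * 2 ^ j := by rw [pow_add]; ring
  rw [e5] at h1 h2
  rw [e0] at h
  obtain ⟨T, hT⟩ : ∃ T : ℝ, T = t ^ j := ⟨_, rfl⟩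
  obtain ⟨B, hB⟩ : ∃ B : ℝ, B = (2 : ℝ) ^ j := ⟨_, rfl⟩
  obtain ⟨R, hR⟩ : ∃ R : ℝ, R = Real.sqrt (Q * L) := ⟨_, rfl⟩
  have hT0 : 0 < T := by rw [hT]; positivity
  have hB0 : 0 < B := by rw [hB]; positivity
  rw [← hT, ← hB, ← hR] at h
  rw [← hT, ← hB] at h1
  rw [← hB, ← hR] at h2
  have h3 : 4 * B * CU * Q * T < ν * y * T * T := mul_lt_mul_of_pos_right h1 hT0
  have h4 : 4 * B * CU * R * (T * T) < ν * y * (T * T) :=
    mul_lt_mul_of_pos_right h2 (by positivity)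
  have e2 : (ν * y / 2) * (T * T / B) = ν * y * (T * T) / (2 * B) := by
    field_simp
  rw [e2, div_le_iff₀ (by positivity)] at h
  have e3 : CU * (T * Q + T * T * R) * (2 * B) =
      (4 * B * CU * Q * T + 4 * B * CU * R * (T * T)) / 2 := by ring
  rw [e3] at h
  have e1 : ν * y * T * T = ν * y * (T * T) := by ring
  rw [e1] at h3
  linarith

lemma m13_sum (J : Finset ℕ) (e : ℕ → ℕ → ℤ) (p j : ℕ) (ρ : ℝ)
    (hs : ∀ n l, e n l = 1 ∨ e n l = -1) (hρ : ρ ≤ 1 / 8)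
    (h : ((Sg J e p 1).card : ℝ) * ((Sg J e p (-1)).card : ℝ) < ρ * (J.card : ℝ) ^ 2) :
    (J.card : ℝ) ^ (2 * j) / 2 ^ j ≤ (∑ n ∈ J, (e n p : ℝ)) ^ (2 * j) := by
  have h1 := m8_sum J e p ρ hs hρ h
  have h2 : (J.card : ℝ) ^ 2 / 2 ≤ (∑ n ∈ J, (e n p : ℝ)) ^ 2 := by
    have h3 : ((J.card : ℝ) ^ 2 / 2) ^ 2 ≤ ((∑ n ∈ J, (e n p : ℝ)) ^ 2) ^ 2 := by
      have e1 : ((J.card : ℝ) ^ 2 / 2) ^ 2 = (J.card : ℝ) ^ 4 / 4 := by ring
      have e2 : ((∑ n ∈ J, (e n p : ℝ)) ^ 2) ^ 2 = (∑ n ∈ J, (e n p : ℝ)) ^ 4 := by ring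
      rw [e1, e2]
      exact h1
    exact le_of_pow_le_pow_left₀ (by norm_num) (sq_nonneg _) h3
  have h3 : ((J.card : ℝ) ^ 2 / 2) ^ j ≤ ((∑ n ∈ J, (e n p : ℝ)) ^ 2) ^ j :=
    pow_le_pow_left₀ (by positivity) h2 j
  rw [← pow_mul, div_pow, ← pow_mul] at h3
  exact h3

lemma m13_big (j : ℕ) (hPG : ST_PG) (hFS : ST_FS4) (CS CP CU : ℝ) (hCS : 0 < CS) (hCP : 0 < CP)
    (hCU : 0 < CU)
    (hSPB : ∀ (N z x : ℕ) (J U : Finset ℕ) (β : ℝ), 1 ≤ N → N ≤ z →
      1 ≤ x → J ⊆ range N → N ≤ J.card ^ 2 → 0 < β →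
      (∀ p ∈ U, p.Prime ∧ p ≠ 2 ∧ z ≤ p ∧ p ≤ x) →
      (∀ p ∈ U, β * (J.card : ℝ) ^ 4 ≤ ∑ t ∈ T4 J, (jacobiSym (cyc df t) p : ℝ)) →
      β ^ 20 * ((U.card : ℝ) / x) ^ 10 ≤ CS * (1 + Real.log x) * (N : ℝ) ^ (-(1 / 20) : ℝ))
    (hPI : ∀ y : ℕ, 2 ≤ y → (Nat.primeCounting y : ℝ) * Real.log y ≤ CP * y)
    (hU : ∀ (N q a : ℕ) (S J : Finset ℕ) (e c d : ℕ → ℕ → ℤ)
      (k : ℤ) (w : ℝ) (m : ℕ → ℤ), 1 ≤ N → 1 ≤ q → Nat.Coprime q a → N ≤ q →
      DatR N q a S e c d k w m → J ⊆ S →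
      ∑ p ∈ OP q, wt q p * (∑ n ∈ J, (e n p : ℝ)) ^ (2 * j) ≤
        CU * ((J.card : ℝ) ^ j * Real.log q +
          (J.card : ℝ) ^ (2 * j) * Real.sqrt (Real.log q * (1 + Real.log N))))
    (N q a y : ℕ) (δ : ℝ) (hδ : 0 < δ) (hδ2 : δ ≤ 1 / 4000)
    (hN : 1 ≤ N) (hq : 1 ≤ q) (hy : 1 ≤ y) (hcop : Nat.Coprime q a) (hNq : N ≤ q)
    (hb : 256 ≤ (N : ℝ) ^ δ) (hc : 126 ≤ (N : ℝ) ^ (3 / 10 : ℝ))
    (hK : 4 ^ 10 * (CS * (1 + CP)) ≤ (N : ℝ) ^ (1 / 50 : ℝ))
    (S J : Finset ℕ) (e c d : ℕ → ℕ → ℤ) (k : ℤ) (w : ℝ) (m : ℕ → ℤ)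
    (hD : DatR N q a S e c d k w m) (hJS : J ⊆ S)
    (htN : (N : ℝ) ^ (1 / 2 : ℝ) ≤ (J.card : ℝ))
    (hTN : ((TN J d).card : ℝ) ≤ (N : ℝ) ^ (-δ) * (J.card : ℝ) ^ 4)
    (hyN : 16 * (N : ℝ) ^ (1 + δ) ≤ y)
    (hP : (N : ℝ) ^ (-δ) * y ≤ (((Icc 1 y).filter (fun p => p.Prime ∧ p ∣ q)).card : ℝ)) :
    (N : ℝ) ^ (-δ) * y * (J.card : ℝ) ^ j ≤ 2 ^ (j + 2) * CU * Real.log q ∨
      (N : ℝ) ^ (-δ) * y ≤ 2 ^ (j + 2) * CU * Real.sqrt (Real.log q * (1 + Real.log N)) := by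
  classical
  have hNr : (1 : ℝ) ≤ N := by exact_mod_cast hN
  have hN0 : (0 : ℝ) < N := by linarith
  have hyr : (1 : ℝ) ≤ y := by exact_mod_cast hy
  have hy0 : (0 : ℝ) < y := by linarith
  obtain ⟨t, ht⟩ : ∃ t : ℝ, t = (J.card : ℝ) := ⟨_, rfl⟩
  have ht0' : 0 ≤ t := by rw [ht]; exact Nat.cast_nonneg _
  rw [← ht] at htN
  have ht126 : 126 ≤ t := by
    refine le_trans hc (le_trans ?_ htN)
    exact Real.rpow_le_rpow_of_exponent_le hNr (by norm_num)
  have ht0 : 0 < t := by linarith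
  have hJr : J ⊆ range N := fun n hn => by
    have h2 := hD.sub (hJS hn)
    rw [SS, mem_filter] at h2
    exact h2.1
  -- ν and ρ
  obtain ⟨A, hA⟩ : ∃ A : ℝ, A = (N : ℝ) ^ δ := ⟨_, rfl⟩
  rw [← hA] at hb
  have hA0 : 0 < A := by linarith
  obtain ⟨ν, hν⟩ : ∃ ν : ℝ, ν = (N : ℝ) ^ (-δ) := ⟨_, rfl⟩
  have hν0 : 0 < ν := by rw [hν]; exact Real.rpow_pos_of_pos hN0 _
  have hνA : ν * A = 1 := by
    rw [hν, hA, ← Real.rpow_add hN0]; simp
  have hν1 : ν ≤ 1 / 256 := by nlinarith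
  rw [← hν] at hTN hP ⊢
  rw [← ht] at hTN ⊢
  obtain ⟨ρ, hρ⟩ : ∃ ρ : ℝ, ρ = 32 * ν := ⟨_, rfl⟩
  have hρ0 : 0 < ρ := by rw [hρ]; positivity
  have hρ8 : ρ ≤ 1 / 8 := by rw [hρ]; linarith
  have hJ2 : 2 ≤ J.card := by
    have : (2 : ℝ) ≤ (J.card : ℝ) := by rw [← ht]; linarith
    exact_mod_cast this
  obtain ⟨x0, hx, y0, hy1, hxy, hNQ⟩ := hPG J d ν hJ2 hν0.le (by rw [← ht]; exact hTN)
  have hNQ' : ((NQ J d x0 y0).card : ℝ) ≤ (2 * ν) * (J.card : ℝ) ^ 2 := hNQ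
  have hρt : 100 ≤ ρ * t := by
    have h1 : (N : ℝ) ^ (3 / 10 : ℝ) ≤ ν * t := by
      calc (N : ℝ) ^ (3 / 10 : ℝ) ≤ (N : ℝ) ^ (-δ + 1 / 2) :=
            Real.rpow_le_rpow_of_exponent_le hNr (by linarith)
        _ = ν * (N : ℝ) ^ (1 / 2 : ℝ) := by rw [hν, Real.rpow_add hN0]
        _ ≤ ν * t := mul_le_mul_of_nonneg_left htN hν0.le
    rw [hρ]; linarith
  have hJN : N ≤ J.card ^ 2 := by
    have h1 : (N : ℝ) = ((N : ℝ) ^ (1 / 2 : ℝ)) ^ 2 := by
      rw [← Real.rpow_natCast, ← Real.rpow_mul hN0.le]; norm_num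
    have h2 : (N : ℝ) ≤ (J.card : ℝ) ^ 2 := by
      rw [h1, ← ht]
      exact pow_le_pow_left₀ (Real.rpow_nonneg hN0.le _) htN 2
    exact_mod_cast h2
  -- the primes
  obtain ⟨P, hPdef⟩ : ∃ P : Finset ℕ, P = (Icc 1 y).filter (fun p => p.Prime ∧ p ∣ q) := ⟨_, rfl⟩
  rw [← hPdef] at hP
  obtain ⟨z, hz⟩ : ∃ z : ℕ, z = ⌊ν * y / 4⌋₊ := ⟨_, rfl⟩
  have hz1 : (z : ℝ) ≤ ν * y / 4 := by rw [hz]; exact Nat.floor_le (by positivity)
  have hz2 : 4 * N ≤ z := by
    rw [hz]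
    apply Nat.le_floor
    push_cast
    have h1 : (N : ℝ) ^ (1 + δ) = N * A := by rw [Real.rpow_add hN0, Real.rpow_one, hA]
    rw [h1] at hyN
    have h2 : ν * (16 * (N * A)) ≤ ν * y := mul_le_mul_of_nonneg_left hyN hν0.le
    have h3 : ν * (16 * (N * A)) = 16 * N * (ν * A) := by ring
    rw [h3, hνA] at h2
    linarith
  obtain ⟨P1, hP1⟩ : ∃ P1 : Finset ℕ, P1 = P.filter (fun p => z < p) := ⟨_, rfl⟩
  have hP1c : P.card ≤ P1.card + z := by
    have h1 : P ⊆ P1 ∪ Icc 1 z := by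
      intro p hp
      rw [mem_union]
      by_cases hzp : z < p
      · left; rw [hP1, mem_filter]; exact ⟨hp, hzp⟩
      · right
        rw [hPdef, mem_filter, mem_Icc] at hp
        rw [mem_Icc]
        omega
    have h2 := card_le_card h1
    have h3 := card_union_le P1 (Icc 1 z)
    rw [Nat.card_Icc] at h3
    omega
  have hP1r : 3 / 4 * (ν * y) ≤ (P1.card : ℝ) := by
    have h1 : (P.card : ℝ) ≤ (P1.card : ℝ) + z := by exact_mod_cast hP1c
    linarith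
  have hmem : ∀ p ∈ P1, p.Prime ∧ p ∣ q ∧ p ≤ y ∧ z < p ∧ p ∈ OP q := by
    intro p hp
    rw [hP1, mem_filter, hPdef, mem_filter, mem_Icc] at hp
    obtain ⟨⟨⟨h1, h2⟩, h3, h4⟩, h5⟩ := hp
    refine ⟨h3, h4, h2, h5, ?_⟩
    rw [OP, mem_erase, Nat.mem_primeFactors]
    exact ⟨by omega, h3, h4, by omega⟩
  -- split primes
  obtain ⟨U, hUd⟩ : ∃ U : Finset ℕ, U = P1.filter (fun p => ρ * (J.card : ℝ) ^ 2 ≤
    ((Sg J e p 1).card : ℝ) * ((Sg J e p (-1)).card : ℝ)) := ⟨_, rfl⟩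
  obtain ⟨T, hT⟩ : ∃ T : Finset ℕ, T = P1.filter (fun p => ¬ ρ * (J.card : ℝ) ^ 2 ≤
    ((Sg J e p 1).card : ℝ) * ((Sg J e p (-1)).card : ℝ)) := ⟨_, rfl⟩
  have hUT : U.card + T.card = P1.card := by
    rw [hUd, hT]
    exact card_filter_add_card_filter_not _
  have hlogy : Real.log y ≤ CP * A := by
    have h2 : 2 ≤ y := by
      have : (2 : ℝ) ≤ y := by
        have h3 : (1 : ℝ) ≤ (N : ℝ) ^ (1 + δ) := Real.one_le_rpow hNr (by linarith)
        linarith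
      exact_mod_cast this
    have h1 := hPI y h2
    have h3 : P.card ≤ Nat.primeCounting y := by
      rw [Nat.primeCounting, ← Nat.primesBelow_card_eq_primeCounting']
      apply card_le_card
      intro p hp
      rw [hPdef, mem_filter, mem_Icc] at hp
      rw [Nat.mem_primesBelow]
      exact ⟨by omega, hp.2.1⟩
    have h4 : ν * y ≤ (Nat.primeCounting y : ℝ) := le_trans hP (by exact_mod_cast h3)
    have h5 : 0 ≤ Real.log y := Real.log_nonneg hyr
    have h6 : ν * y * Real.log y ≤ CP * y := le_trans (mul_le_mul_of_nonneg_right h4 h5) h1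
    have h7 : (ν * Real.log y) * y ≤ CP * y := by linarith [h6, mul_comm (ν * (y : ℝ)) (Real.log y)]
    have h8 : ν * Real.log y ≤ CP := le_of_mul_le_mul_right h7 hy0
    calc Real.log y = (ν * A) * Real.log y := by rw [hνA, one_mul]
      _ = (ν * Real.log y) * A := by ring
      _ ≤ CP * A := mul_le_mul_of_nonneg_right h8 hA0.le
  have hUc : (U.card : ℝ) ≤ ν * y / 4 := by
    have h1 := hSPB N z y J U (ρ ^ 4 / 16) hN (by omega) hy hJr hJN (by positivity) (by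
      intro p hp
      rw [hUd, mem_filter] at hp
      obtain ⟨h1, h2, h3, h4, h5⟩ := hmem p hp.1
      exact ⟨h1, by omega, h4.le, h3⟩) (by
      intro p hp
      rw [hUd, mem_filter] at hp
      obtain ⟨h1, h2, h3, h4, h5⟩ := hmem p hp.1
      exact hFS N q a S J e c d k w (2 * ν) ρ m x0 y0 p hD hJS hx hy1 hxy hNQ' hρ0
        (by rw [hρ]; linarith) (by rw [← ht]; exact hρt) h5 (by omega) hp.2)
    obtain ⟨u, hu⟩ : ∃ u : ℝ, u = (U.card : ℝ) / y := ⟨_, rfl⟩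
    have hu0 : 0 ≤ u := by rw [hu]; positivity
    rw [← hu] at h1
    obtain ⟨B, hB⟩ : ∃ B : ℝ, B = (N : ℝ) ^ (-(1 / 20) : ℝ) := ⟨_, rfl⟩
    have hB0 : 0 < B := by rw [hB]; exact Real.rpow_pos_of_pos hN0 _
    rw [← hB] at h1
    have h2 : ν ^ 80 ≤ (ρ ^ 4 / 16) ^ 20 := by
      have e1 : ν ^ 80 = (ν ^ 4) ^ 20 := by ring
      have e2 : ρ ^ 4 / 16 = 65536 * ν ^ 4 := by rw [hρ]; ring
      rw [e1, e2]
      apply pow_le_pow_left₀ (by positivity)
      have : 0 ≤ ν ^ 4 := by positivity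
      linarith
    have h3 : 1 + Real.log y ≤ (1 + CP) * A := by
      have : (1 : ℝ) ≤ A := by linarith
      nlinarith
    have h4 : ν ^ 80 * u ^ 10 ≤ CS * ((1 + CP) * A) * B := by
      calc ν ^ 80 * u ^ 10 ≤ (ρ ^ 4 / 16) ^ 20 * u ^ 10 :=
            mul_le_mul_of_nonneg_right h2 (by positivity)
        _ ≤ CS * (1 + Real.log y) * B := h1
        _ ≤ CS * ((1 + CP) * A) * B := by
            apply mul_le_mul_of_nonneg_right _ hB0.le
            exact mul_le_mul_of_nonneg_left h3 hCS.le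
    have h5 : u ^ 10 ≤ CS * (1 + CP) * A ^ 81 * B := by
      have e1 : (ν * A) ^ 80 * u ^ 10 = A ^ 80 * (ν ^ 80 * u ^ 10) := by ring
      rw [hνA, one_pow, one_mul] at e1
      rw [e1]
      calc A ^ 80 * (ν ^ 80 * u ^ 10) ≤ A ^ 80 * (CS * ((1 + CP) * A) * B) :=
            mul_le_mul_of_nonneg_left h4 (by positivity)
        _ = CS * (1 + CP) * A ^ 81 * B := by ring
    have h6 : (N : ℝ) ^ (1 / 50 : ℝ) * (A ^ 81 * B) ≤ ν ^ 10 := by
      have e1 : A ^ 81 = (N : ℝ) ^ (δ * 81) := by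
        rw [hA, Real.rpow_mul hN0.le]
        norm_cast
      have e2 : ν ^ 10 = (N : ℝ) ^ (-δ * 10) := by
        rw [hν, Real.rpow_mul hN0.le]
        norm_cast
      rw [e1, e2, hB, ← Real.rpow_add hN0, ← Real.rpow_add hN0]
      apply Real.rpow_le_rpow_of_exponent_le hNr
      linarith
    have h7 : u ^ 10 ≤ (ν / 4) ^ 10 := by
      have e1 : (ν / 4) ^ 10 = ν ^ 10 / 4 ^ 10 := by rw [div_pow]
      rw [e1, le_div_iff₀ (by positivity)]
      calc u ^ 10 * 4 ^ 10 ≤ CS * (1 + CP) * A ^ 81 * B * 4 ^ 10 :=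
            mul_le_mul_of_nonneg_right h5 (by positivity)
        _ = 4 ^ 10 * (CS * (1 + CP)) * (A ^ 81 * B) := by ring
        _ ≤ (N : ℝ) ^ (1 / 50 : ℝ) * (A ^ 81 * B) :=
            mul_le_mul_of_nonneg_right hK (by positivity)
        _ ≤ ν ^ 10 := h6
    have h8 : u ≤ ν / 4 := le_of_pow_le_pow_left₀ (by norm_num) (by positivity) h7
    rw [hu, div_le_iff₀ hy0] at h8
    linarith
  have hTc : ν * y / 2 ≤ (T.card : ℝ) := by
    have h1 : (U.card : ℝ) + T.card = P1.card := by exact_mod_cast hUT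
    linarith
  -- the moment
  have hUU := hU N q a S J e c d k w m hN hq hcop hNq hD hJS
  rw [← ht] at hUU
  have hlow : (T.card : ℝ) * (t ^ (2 * j) / 2 ^ j) ≤
      ∑ p ∈ OP q, wt q p * (∑ n ∈ J, (e n p : ℝ)) ^ (2 * j) := by
    have hsub : T ⊆ OP q := by
      intro p hp
      rw [hT, mem_filter] at hp
      exact (hmem p hp.1).2.2.2.2
    calc (T.card : ℝ) * (t ^ (2 * j) / 2 ^ j) = ∑ _p ∈ T, (t ^ (2 * j) / 2 ^ j) := by
          rw [sum_const, nsmul_eq_mul]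
      _ ≤ ∑ p ∈ T, wt q p * (∑ n ∈ J, (e n p : ℝ)) ^ (2 * j) := by
          apply sum_le_sum
          intro p hp
          have hpO := hsub hp
          rw [hT, mem_filter] at hp
          have h1 : ((Sg J e p 1).card : ℝ) * ((Sg J e p (-1)).card : ℝ) <
              ρ * (J.card : ℝ) ^ 2 := not_le.mp hp.2
          have h2 := m13_sum J e p j ρ hD.dat.sgn hρ8 h1
          rw [← ht] at h2
          have h3 := m8_wt q p hpO
          have h4 : 0 ≤ (∑ n ∈ J, (e n p : ℝ)) ^ (2 * j) := by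
            rw [pow_mul]; positivity
          nlinarith
      _ ≤ ∑ p ∈ OP q, wt q p * (∑ n ∈ J, (e n p : ℝ)) ^ (2 * j) := by
          apply sum_le_sum_of_subset_of_nonneg hsub
          intro p hp _
          have h3 := m8_wt q p hp
          have h4 : 0 ≤ (∑ n ∈ J, (e n p : ℝ)) ^ (2 * j) := by
            rw [pow_mul]; positivity
          exact mul_nonneg (by linarith) h4
  apply m13_alg j CU (1 + Real.log N) (Real.log q) t ν y hCU ht0
  refine le_trans ?_ (le_trans hlow hUU)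
  exact mul_le_mul_of_nonneg_right hTc (by positivity)

theorem st_MAIN13 (hA1 : ST_A1) (hPG : ST_PG) (hFS : ST_FS4) (hSPB : ST_SPB) (hUN : ST_UNSK)
    (hM8 : Pool.Agent.Helper19.RD.ST_MAIN8) (hPI : ST_PIU) : ST_MAIN13 := by
  classical
  intro ε hε j hj
  obtain ⟨η, hη⟩ : ∃ η : ℝ, η = min (ε / 2) (1 / 10) := ⟨_, rfl⟩
  have hη0 : 0 < η := by rw [hη]; exact lt_min (by positivity) (by norm_num)
  have hη1 : η ≤ 1 / 10 := by rw [hη]; exact min_le_right _ _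
  have hη2 : η ≤ ε / 2 := by rw [hη]; exact min_le_left _ _
  obtain ⟨δ1, N0, hδ1, hδη, hA⟩ := hA1 η hη0 hη1
  obtain ⟨CU, hCU, hU⟩ := hUN j hj
  obtain ⟨C8, hM⟩ := hM8 (ε / 2) (by positivity)
  obtain ⟨CS, hCS, hS⟩ := hSPB
  obtain ⟨CP, hCP, hPP⟩ := hPI
  obtain ⟨δ, hδd⟩ : ∃ δ : ℝ, δ = min δ1 (1 / 4000) := ⟨_, rfl⟩
  have hδ0 : 0 < δ := by rw [hδd]; exact lt_min hδ1 (by norm_num)
  have hδ2 : δ ≤ 1 / 4000 := by rw [hδd]; exact min_le_right _ _
  have hδ3 : δ ≤ δ1 := by rw [hδd]; exact min_le_left _ _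
  have hδε : δ ≤ ε / 2 := by linarith
  obtain ⟨K, hK⟩ : ∃ K : ℝ, K = 2 ^ (j + 2) * CU + 1 := ⟨_, rfl⟩
  have hK1 : 1 ≤ K := by rw [hK]; have : 0 < (2 : ℝ) ^ (j + 2) * CU := by positivity
                         linarith
  obtain ⟨N1, hN1⟩ : ∃ N1 : ℕ, ∀ N : ℕ, N1 ≤ N → N0 ≤ N ∧ 256 ≤ (N : ℝ) ^ δ ∧
      126 ≤ (N : ℝ) ^ (3 / 10 : ℝ) ∧ 4 ^ 10 * (CS * (1 + CP)) ≤ (N : ℝ) ^ (1 / 50 : ℝ) ∧
      K ^ 2 * (1 + 8 / ε) < (N : ℝ) ^ (ε / 8) := by
    have e1 := ((tendsto_rpow_atTop hδ0).comp tendsto_natCast_atTop_atTop).eventually_ge_atTop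
      (256 : ℝ)
    have e2 := ((tendsto_rpow_atTop (show (0 : ℝ) < 3 / 10 by norm_num)).comp
      tendsto_natCast_atTop_atTop).eventually_ge_atTop (126 : ℝ)
    have e3 := ((tendsto_rpow_atTop (show (0 : ℝ) < 1 / 50 by norm_num)).comp
      tendsto_natCast_atTop_atTop).eventually_ge_atTop (4 ^ 10 * (CS * (1 + CP)))
    have e4 := ((tendsto_rpow_atTop (show (0 : ℝ) < ε / 8 by positivity)).comp
      tendsto_natCast_atTop_atTop).eventually_gt_atTop (K ^ 2 * (1 + 8 / ε))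
    obtain ⟨N1, hN1⟩ := Filter.eventually_atTop.mp
      ((Filter.eventually_ge_atTop N0).and (e1.and (e2.and (e3.and e4))))
    exact ⟨N1, fun N hN => hN1 N hN⟩
  obtain ⟨M, hMd⟩ : ∃ M : ℝ, M = |C8| := ⟨_, rfl⟩
  have hM0 : 0 ≤ M := by rw [hMd]; exact abs_nonneg _
  obtain ⟨C, hC⟩ : ∃ C : ℝ, C = N1 + 1 + 5 * M + K := ⟨_, rfl⟩
  have hN1' : (0 : ℝ) ≤ N1 := Nat.cast_nonneg _
  have hC0 : 0 < C := by rw [hC]; linarith
  refine ⟨C, δ, hC0, hδ0, ?_⟩
  intro N q a y hN hq hy hcop hyQ hP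
  have hNr : (1 : ℝ) ≤ N := by exact_mod_cast hN
  have hN0 : (0 : ℝ) < N := by linarith
  have hyr : (1 : ℝ) ≤ y := by exact_mod_cast hy
  have hy0 : (0 : ℝ) < y := by linarith
  have hlogN : 0 ≤ Real.log N := Real.log_nonneg hNr
  have hQ0 : 0 ≤ Real.log q := Real.log_natCast_nonneg q
  obtain ⟨E, hE⟩ : ∃ E : ℝ, E = (N : ℝ) ^ (ε / 2) := ⟨_, rfl⟩
  have hE1 : 1 ≤ E := by rw [hE]; exact Real.one_le_rpow hNr (by positivity)
  have hEE : (N : ℝ) ^ ε = E * E := by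
    rw [hE, ← Real.rpow_add hN0]; congr 1; ring
  obtain ⟨r, hr⟩ : ∃ r : ℝ, r = Real.sqrt N := ⟨_, rfl⟩
  have hr1 : 1 ≤ r := by rw [hr, Real.one_le_sqrt]; exact hNr
  obtain ⟨X, hX⟩ : ∃ X : ℝ, X = (Real.log q / y) ^ (1 / (j : ℝ)) := ⟨_, rfl⟩
  have hX0 : 0 ≤ X := by rw [hX]; exact Real.rpow_nonneg (by positivity) _
  obtain ⟨Q, hQ⟩ : ∃ Q : ℝ, Q = Real.log q := ⟨_, rfl⟩
  rw [← hQ] at hQ0 hX hyQ
  change ((SS N q a).card : ℝ) ≤ _
  rw [← hQ, ← hX, ← hr, hEE]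
  obtain ⟨s, hs⟩ : ∃ s : ℝ, s = ((SS N q a).card : ℝ) := ⟨_, rfl⟩
  rw [← hs]
  -- it is enough to prove a bound with a smaller constant
  have fin : ∀ K : ℝ, 0 ≤ K → K ≤ C → s ≤ K * (E * E) * (r + X) → s ≤ C * (E * E) * (r + X) := by
    intro K _ h2 h3
    refine le_trans h3 ?_
    apply mul_le_mul_of_nonneg_right _ (by linarith)
    exact mul_le_mul_of_nonneg_right h2 (by positivity)
  have hEE1 : 1 ≤ E * E := by nlinarith
  have hEE2 : E ≤ E * E := by nlinarith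
  have hSN : s ≤ N := by
    have h1 : (SS N q a).card ≤ N := by
      calc (SS N q a).card ≤ (range N).card := card_filter_le _ _
        _ = N := card_range N
    rw [hs]
    exact_mod_cast h1
  by_cases hNN : N < N1
  · apply fin N1 hN1' (by rw [hC]; linarith)
    have h1 : (N : ℝ) ≤ N1 := by exact_mod_cast hNN.le
    have h3 : (1 : ℝ) ≤ (E * E) * (r + X) := by nlinarith
    nlinarith
  push Not at hNN
  obtain ⟨ha, hb, hc, hd, hd4⟩ := hN1 N hNN
  -- the fourth root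
  obtain ⟨g, hg⟩ : ∃ g : ℝ, g = Q ^ (1 / 4 : ℝ) := ⟨_, rfl⟩
  have hg0 : 0 ≤ g := by rw [hg]; exact Real.rpow_nonneg hQ0 _
  have hg4 : g ^ 4 = Q := by
    rw [hg, ← Real.rpow_natCast, ← Real.rpow_mul hQ0]
    norm_num
  have hs8 : s ≤ M * E * (r + g) := by
    have h1 := hM N q a hN hq hcop
    change ((SS N q a).card : ℝ) ≤ _ at h1
    rw [← hs, ← hQ, ← hE, ← hr, ← hg] at h1
    refine le_trans h1 ?_
    rw [hMd]
    apply mul_le_mul_of_nonneg_right _ (by linarith)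
    exact mul_le_mul_of_nonneg_right (le_abs_self _) (by linarith)
  have hr2 : r ^ 2 = N := by rw [hr]; exact Real.sq_sqrt hN0.le
  by_cases hqN : q < N
  · apply fin (2 * M) (by linarith) (by rw [hC]; linarith)
    have h3 : Q ≤ N := by
      rw [hQ]
      have h4 : Real.log q ≤ q := by
        have := Real.log_le_sub_one_of_pos (show (0 : ℝ) < q by exact_mod_cast hq)
        linarith
      have h5 : (q : ℝ) ≤ N := by exact_mod_cast hqN.le
      linarith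
    have h4 : g ≤ r := by
      have h5 : g ^ 4 ≤ r ^ 4 := by
        rw [hg4, show r ^ 4 = (r ^ 2) ^ 2 by ring, hr2]
        nlinarith
      exact le_of_pow_le_pow_left₀ (by norm_num) (by linarith) h5
    calc s ≤ M * E * (r + g) := hs8
      _ ≤ M * (E * E) * (2 * (r + X)) := by
          apply mul_le_mul (mul_le_mul_of_nonneg_left hEE2 hM0) (by linarith) (by linarith)
            (by positivity)
      _ = 2 * M * (E * E) * (r + X) := by ring
  push Not at hqN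
  by_cases hys : (y : ℝ) < 16 * (N : ℝ) ^ (1 + δ)
  · apply fin (5 * M) (by linarith) (by rw [hC]; linarith)
    have h1 : g ≤ 4 * r := by
      have h2 : g ^ 2 ≤ (4 * r) ^ 2 := by
        have h3 : Real.sqrt Q = g ^ 2 := by
          rw [← hg4, show g ^ 4 = (g ^ 2) ^ 2 by ring]
          exact Real.sqrt_sq (sq_nonneg g)
        rw [h3] at hyQ
        have h4 : (N : ℝ) ^ ε * g ^ 2 ≤ (N : ℝ) ^ ε * (16 * N) := by
          refine hyQ.trans (hys.le.trans ?_)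
          calc 16 * (N : ℝ) ^ (1 + δ) ≤ 16 * (N : ℝ) ^ (ε + 1) := by
                apply mul_le_mul_of_nonneg_left _ (by norm_num)
                exact Real.rpow_le_rpow_of_exponent_le hNr (by linarith)
            _ = (N : ℝ) ^ ε * (16 * N) := by
                rw [Real.rpow_add hN0, Real.rpow_one]; ring
        have h5 : g ^ 2 ≤ 16 * N := le_of_mul_le_mul_left h4 (Real.rpow_pos_of_pos hN0 _)
        calc g ^ 2 ≤ 16 * N := h5
          _ = (4 * r) ^ 2 := by rw [mul_pow, hr2]; norm_num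
      exact le_of_pow_le_pow_left₀ (by norm_num) (by positivity) h2
    calc s ≤ M * E * (r + g) := hs8
      _ ≤ M * E * (5 * E * (r + X)) := by
          apply mul_le_mul_of_nonneg_left _ (by positivity)
          nlinarith
      _ = 5 * M * (E * E) * (r + X) := by ring
  push Not at hys
  by_cases hbig : (N : ℝ) ^ (1 / 2 + η) ≤ (SS N q a).card
  · obtain ⟨S, J, e, c, d, k, w, m, hD, hJS, hJ1, hTN⟩ := hA N q a ha hq hcop hbig
    have htN : (N : ℝ) ^ (1 / 2 : ℝ) ≤ (J.card : ℝ) := by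
      have h1 : (N : ℝ) ^ (η / 4) * (N : ℝ) ^ (1 / 2 : ℝ) ≤ (N : ℝ) ^ (η / 4) * J.card := by
        calc (N : ℝ) ^ (η / 4) * (N : ℝ) ^ (1 / 2 : ℝ) = (N : ℝ) ^ (η / 4 + 1 / 2) := by
              rw [Real.rpow_add hN0]
          _ ≤ (N : ℝ) ^ (1 / 2 + η) := Real.rpow_le_rpow_of_exponent_le hNr (by linarith)
          _ ≤ _ := hbig
          _ ≤ _ := hJ1
      exact le_of_mul_le_mul_left h1 (Real.rpow_pos_of_pos hN0 _)
    have hTN' : ((TN J d).card : ℝ) ≤ (N : ℝ) ^ (-δ) * (J.card : ℝ) ^ 4 := by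
      refine le_trans hTN ?_
      apply mul_le_mul_of_nonneg_right _ (by positivity)
      exact Real.rpow_le_rpow_of_exponent_le hNr (by linarith)
    have key := m13_big j hPG hFS CS CP CU hCS hCP hCU hS hPP hU N q a y δ hδ0 hδ2 hN hq hy hcop hqN
      hb hc hd S J e c d k w m hD hJS htN hTN' hys hP
    rw [← hQ] at key
    obtain ⟨t, ht⟩ : ∃ t : ℝ, t = (J.card : ℝ) := ⟨_, rfl⟩
    have ht0 : 0 ≤ t := by rw [ht]; exact Nat.cast_nonneg _
    rw [← ht] at key hJ1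
    rw [← hs] at hJ1
    obtain ⟨A, hA'⟩ : ∃ A : ℝ, A = (N : ℝ) ^ δ := ⟨_, rfl⟩
    have hA0 : 0 < A := by rw [hA']; exact Real.rpow_pos_of_pos hN0 _
    obtain ⟨ν, hν⟩ : ∃ ν : ℝ, ν = (N : ℝ) ^ (-δ) := ⟨_, rfl⟩
    rw [← hν] at key
    have hνA : ν * A = 1 := by
      rw [hν, hA', ← Real.rpow_add hN0]; simp
    have hAE : A ≤ E := by
      rw [hA', hE]; exact Real.rpow_le_rpow_of_exponent_le hNr hδε
    have hj0 : (0 : ℝ) < j := by exact_mod_cast hj
    have hXj : X ^ j = Q / y := by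
      rw [hX, ← Real.rpow_natCast, ← Real.rpow_mul (by positivity)]
      rw [one_div, inv_mul_cancel₀ hj0.ne', Real.rpow_one]
    have hA1' : 1 ≤ A := by rw [hA']; exact Real.one_le_rpow hNr hδ0.le
    rcases key with key | key
    · apply fin K (by linarith) (by rw [hC]; linarith)
      have h1 : t ≤ K * A * X := by
        have h2 : t ^ j ≤ (K * A * X) ^ j := by
          have h3 : y * t ^ j ≤ A * (K * Q) := by
            calc y * t ^ j = A * (ν * y * t ^ j) := by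
                  calc y * t ^ j = (ν * A) * (y * t ^ j) := by rw [hνA, one_mul]
                    _ = _ := by ring
              _ ≤ A * (2 ^ (j + 2) * CU * Q) := mul_le_mul_of_nonneg_left key hA0.le
              _ ≤ A * (K * Q) := by
                  apply mul_le_mul_of_nonneg_left _ hA0.le
                  apply mul_le_mul_of_nonneg_right _ hQ0
                  rw [hK]; linarith
          have h4 : (K * A * X) ^ j = (K * A) ^ j * (Q / y) := by
            rw [mul_pow, hXj]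
          have h5 : K * A ≤ (K * A) ^ j := by
            have h6 : 1 ≤ K * A := by nlinarith
            exact le_self_pow₀ h6 (by omega)
          have h7 : (K * A) * (Q / y) ≤ (K * A) ^ j * (Q / y) :=
            mul_le_mul_of_nonneg_right h5 (by positivity)
          rw [h4]
          refine le_trans ?_ h7
          rw [show (K * A) * (Q / y) = (A * (K * Q)) / y by ring, le_div_iff₀ hy0]
          linarith
        exact le_of_pow_le_pow_left₀ (by omega) (by positivity) h2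
      have h2 : (N : ℝ) ^ (η / 4) ≤ E := by
        rw [hE]; exact Real.rpow_le_rpow_of_exponent_le hNr (by linarith)
      calc s ≤ (N : ℝ) ^ (η / 4) * t := hJ1
        _ ≤ E * (K * A * X) := mul_le_mul h2 h1 ht0 (by linarith)
        _ ≤ E * (K * E * X) := by
            apply mul_le_mul_of_nonneg_left _ (by linarith)
            apply mul_le_mul_of_nonneg_right _ hX0
            exact mul_le_mul_of_nonneg_left hAE (by linarith)
        _ = K * (E * E) * X := by ring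
        _ ≤ K * (E * E) * (r + X) := by
            apply mul_le_mul_of_nonneg_left _ (by positivity)
            linarith
    · exfalso
      have hQpos : 0 < Q := by
        have h2 : (2 : ℝ) ≤ q := by
          have h3 : (N : ℝ) ≤ q := by exact_mod_cast hqN
          have h4 : 2 ≤ N := by
            by_contra h5
            have h6 : N = 1 := by omega
            rw [h6] at hb
            norm_num at hb
          have h5 : (2 : ℝ) ≤ N := by exact_mod_cast h4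
          linarith
        rw [hQ]
        exact Real.log_pos (by linarith)
      have hsQ : 0 < Real.sqrt Q := Real.sqrt_pos.2 hQpos
      have h1 : Real.sqrt (Q * (1 + Real.log N)) = Real.sqrt Q * Real.sqrt (1 + Real.log N) :=
        Real.sqrt_mul hQ0 _
      rw [h1] at key
      have h2 : (N : ℝ) ^ ε * Real.sqrt Q ≤ A * (K * (Real.sqrt Q * Real.sqrt (1 + Real.log N))) := by
        calc (N : ℝ) ^ ε * Real.sqrt Q ≤ y := hyQ
          _ = A * (ν * y) := by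
              calc (y : ℝ) = (ν * A) * y := by rw [hνA, one_mul]
                _ = _ := by ring
          _ ≤ A * (2 ^ (j + 2) * CU * (Real.sqrt Q * Real.sqrt (1 + Real.log N))) :=
              mul_le_mul_of_nonneg_left key hA0.le
          _ ≤ A * (K * (Real.sqrt Q * Real.sqrt (1 + Real.log N))) := by
              apply mul_le_mul_of_nonneg_left _ hA0.le
              apply mul_le_mul_of_nonneg_right _ (by positivity)
              rw [hK]; linarith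
      have h3 : (N : ℝ) ^ ε ≤ A * K * Real.sqrt (1 + Real.log N) := by
        have h4 : (N : ℝ) ^ ε * Real.sqrt Q ≤
            (A * K * Real.sqrt (1 + Real.log N)) * Real.sqrt Q := by linarith
        exact le_of_mul_le_mul_right h4 hsQ
      have h4 : 1 + Real.log N ≤ (1 + 8 / ε) * (N : ℝ) ^ (ε / 8) := by
        have h6 := m8_log N hN (ε / 8) (by positivity)
        have e1 : 1 / (ε / 8) = 8 / ε := by field_simp
        rw [e1] at h6
        exact h6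
      obtain ⟨G, hG⟩ : ∃ G : ℝ, G = (N : ℝ) ^ (ε / 8) := ⟨_, rfl⟩
      have hG0 : 0 < G := by rw [hG]; exact Real.rpow_pos_of_pos hN0 _
      rw [← hG] at h4 hd4
      have h5 : K * Real.sqrt (1 + Real.log N) < G := by
        have h6 : (K * Real.sqrt (1 + Real.log N)) ^ 2 < G ^ 2 := by
          rw [mul_pow, Real.sq_sqrt (by linarith)]
          calc K ^ 2 * (1 + Real.log N) ≤ K ^ 2 * ((1 + 8 / ε) * G) :=
                mul_le_mul_of_nonneg_left h4 (by positivity)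
            _ = (K ^ 2 * (1 + 8 / ε)) * G := by ring
            _ < G * G := mul_lt_mul_of_pos_right hd4 hG0
            _ = G ^ 2 := by ring
        exact lt_of_pow_lt_pow_left₀ 2 hG0.le h6
      have h6 : A * G ≤ (N : ℝ) ^ ε := by
        rw [hA', hG, ← Real.rpow_add hN0]
        exact Real.rpow_le_rpow_of_exponent_le hNr (by linarith)
      have h7 : A * (K * Real.sqrt (1 + Real.log N)) < A * G := mul_lt_mul_of_pos_left h5 hA0
      have h8 : A * K * Real.sqrt (1 + Real.log N) = A * (K * Real.sqrt (1 + Real.log N)) := by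
        ring
      linarith
  · push Not at hbig
    rw [← hs] at hbig
    apply fin 1 (by norm_num) (by rw [hC]; linarith)
    have h1 : (N : ℝ) ^ (1 / 2 + η) ≤ (E * E) * r := by
      rw [← hEE, hr, Real.sqrt_eq_rpow, ← Real.rpow_add hN0]
      exact Real.rpow_le_rpow_of_exponent_le hNr (by linarith)
    have h2 : 0 ≤ (E * E) * X := by positivity
    nlinarith

end Pool.Agent.Helper83.RD8
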