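import Pool.Agent.Helper83.RD8.Stmts13
import Pool.Agent.Helper83.RU.UnsSg

/-!
# Row UNSK (helper83): the moments of the signs of all even orders
-/

namespace Pool.Agent.Helper83.RD8

open Finset Pool.Agent.Helper18.RD Pool.Agent.Helper19.RD

theorem st_UNSK : ST_UNSK := by
  classical
  intro j hj
  refine ⟨6 * (2 * (j : ℝ)) ^ j + 128 * ((j : ℝ) + 1), by positivity, ?_⟩
  intro N q a S J e c d k w m hN hq hco _ hD hJ
  obtain ⟨b, hb, he, -⟩ := hD.sg
  have hsub : J ⊆ SS (N + 1) q a := by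
    intro n hn
    have h1 := hD.sub (hJ hn)
    obtain ⟨h2, h3⟩ := mem_filter.1 h1
    exact mem_filter.2 ⟨mem_range.2 ((mem_range.1 h2).trans (Nat.lt_succ_self N)), h3⟩
  have h := Pool.Agent.Helper83.RU.UnsSg.uns j (N + 1) q a b J hj (by omega) hq hco hb hsub
  have hNR : (1 : ℝ) ≤ N := by exact_mod_cast hN
  have hlN : 0 ≤ Real.log N := Real.log_nonneg hNR
  have hlq : 0 ≤ Real.log q := Real.log_natCast_nonneg _
  have hlog : Real.log (2 * ((N + 1 : ℕ) : ℝ)) ≤ 4 * (1 + Real.log N) := by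
    have h1 : Real.log (2 * ((N + 1 : ℕ) : ℝ)) ≤ Real.log (4 * (N : ℝ)) := by
      apply Real.log_le_log (by positivity)
      push_cast
      linarith
    have h3 : Real.log (4 * (N : ℝ)) = Real.log 4 + Real.log N :=
      Real.log_mul (by norm_num) (by positivity)
    have h2 : Real.log 4 ≤ 4 - 1 := Real.log_le_sub_one_of_pos (by norm_num)
    linarith
  have hsq : √(Real.log q * Real.log (2 * ((N + 1 : ℕ) : ℝ))) ≤
      2 * √(Real.log q * (1 + Real.log N)) := by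
    have h1 : Real.log q * Real.log (2 * ((N + 1 : ℕ) : ℝ)) ≤
        2 ^ 2 * (Real.log q * (1 + Real.log N)) := by
      have := mul_le_mul_of_nonneg_left hlog hlq
      linarith
    calc _ ≤ √(2 ^ 2 * (Real.log q * (1 + Real.log N))) := Real.sqrt_le_sqrt h1
      _ = _ := by
        rw [Real.sqrt_mul (by positivity), Real.sqrt_sq (by norm_num)]
  have heq : ∑ p ∈ OP q, wt q p * (∑ n ∈ J, (e n p : ℝ)) ^ (2 * j) =
      ∑ l ∈ OP q, wt q l * ((∑ n ∈ J, Pool.Agent.Helper18.RD.sg q a b n l : ℤ) : ℝ) ^ (2 * j) := by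
    refine sum_congr rfl fun p _ => ?_
    have h1 : ∑ n ∈ J, (e n p : ℝ) =
        ((∑ n ∈ J, Pool.Agent.Helper18.RD.sg q a b n p : ℤ) : ℝ) := by
      push_cast
      exact sum_congr rfl fun n _ => by rw [he]
    rw [h1]
  rw [heq]
  refine h.trans ?_
  obtain ⟨X, hX⟩ : ∃ X : ℝ, X = (J.card : ℝ) ^ j * Real.log q := ⟨_, rfl⟩
  obtain ⟨Z, hZ⟩ : ∃ Z : ℝ, Z = (J.card : ℝ) ^ (2 * j) * √(Real.log q * (1 + Real.log N)) :=
    ⟨_, rfl⟩
  have hX0 : 0 ≤ X := by rw [hX]; positivity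
  have hZ0 : 0 ≤ Z := by rw [hZ]; positivity
  have hj0 : (0 : ℝ) ≤ j := Nat.cast_nonneg j
  have h1 : (J.card : ℝ) ^ (2 * j) *
      (64 * ((j : ℝ) + 1) * √(Real.log q * Real.log (2 * ((N + 1 : ℕ) : ℝ)))) ≤
      128 * ((j : ℝ) + 1) * Z := by
    rw [hZ]
    calc _ ≤ (J.card : ℝ) ^ (2 * j) *
          (64 * ((j : ℝ) + 1) * (2 * √(Real.log q * (1 + Real.log N)))) :=
          mul_le_mul_of_nonneg_left (mul_le_mul_of_nonneg_left hsq (by positivity)) (by positivity)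
      _ = _ := by ring
  have h2 : (2 * (j : ℝ)) ^ j * (J.card : ℝ) ^ j * (6 * Real.log q) =
      6 * (2 * (j : ℝ)) ^ j * X := by
    rw [hX]; ring
  rw [h2, ← hX, ← hZ]
  have h3 : 0 ≤ (2 * (j : ℝ)) ^ j := by positivity
  have h4 : 0 ≤ 6 * (2 * (j : ℝ)) ^ j * Z := by positivity
  have h5 : 0 ≤ 128 * ((j : ℝ) + 1) * X := by positivity
  calc _ ≤ 6 * (2 * (j : ℝ)) ^ j * X + 128 * ((j : ℝ) + 1) * Z := by linarith
    _ ≤ (6 * (2 * (j : ℝ)) ^ j + 128 * ((j : ℝ) + 1)) * (X + Z) := by nlinarith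

end Pool.Agent.Helper83.RD8
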