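import Pool.Agent.Helper19.RD.All8
import Pool.Agent.Helper97.RD8.SQC
import Pool.Agent.Helper97.RD8.FS4
import Pool.Agent.Helper97.RD8.SPB
import Pool.Agent.Helper83.RD8.UNSK
import Pool.Agent.Helper83.RD8.MAIN13

/-! Project RD, T6: assembly. -/

set_option autoImplicit false

namespace Pool.Agent.Helper83.RD8

open Pool.Agent.Helper18.RD Pool.Agent.Helper19.RD

theorem main13 : ST_MAIN13 :=
  st_MAIN13 a1 st_PG (Pool.Agent.Helper97.RD8.st_FS4 Pool.Agent.Helper97.RD8.st_SQC)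
    (Pool.Agent.Helper97.RD8.st_SPB rd8_wl1 rd8_end2) st_UNSK main8 Pool.Agent.Helper97.RD8.st_PIU

end Pool.Agent.Helper83.RD8
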