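import Pool.Agent.Helper19.RD.All8
import Pool.Agent.Helper68.RD.SM7
import Pool.Agent.Helper83.RD8.T7

/-! Project RD, T7: assembly. -/

set_option autoImplicit false

namespace Pool.Agent.Helper83.RD8

open Pool.Agent.Helper18.RD Pool.Agent.Helper19.RD

theorem lq2 : ST_LQ2 :=
  st_LQ2 rd8_arr a1 st_PG (Pool.Agent.Helper41.RD8.st_SP2 st_BL1) st_UNS
    Pool.Agent.Helper97.RD.st_TR (Pool.Agent.Helper26.RD.st_GR st_UV)

theorem t7 : ST_T7 := st_T7 lq2 main8

theorem lq : Pool.Agent.Helper68.RD.ST_LQ := by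
  intro ε hε
  obtain ⟨C, hC, h⟩ := lq2 ε hε
  refine ⟨C, hC, ?_⟩
  intro N q0 q1 a hN hq0 hq1 hc hca hsm hbig
  have h1 := h N q0 q1 1 a hN hq0 hq1 le_rfl hc (Nat.coprime_one_right _) (by rw [mul_one]; exact hca)
    hsm (by
      rw [Nat.primeFactors_one, Finset.card_empty, Nat.cast_zero, add_zero, mul_one]
      exact hbig)
  rw [mul_one] at h1
  exact h1

theorem sm7 : Pool.Agent.Helper68.RD.ST_LQ → Pool.Agent.Helper68.RD.ST_SM →
    Pool.Agent.Helper68.RD.ST_SM7 := Pool.Agent.Helper68.RD.st_SM7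

end Pool.Agent.Helper83.RD8
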