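import Pool.Agent.Helper97.RD8.Stmts11

/-! Project RD, T6: T4 with the moments of all orders. -/

set_option autoImplicit false

namespace Pool.Agent.Helper83.RD8

open Finset Pool.Agent.Helper18.RD Pool.Agent.Helper19.RD

/-- UNSK: the moments of the signs of all even orders. -/
def ST_UNSK : Prop := ∀ j : ℕ, 1 ≤ j → ∃ C : ℝ, 0 < C ∧ ∀ (N q a : ℕ) (S J : Finset ℕ)
  (e c d : ℕ → ℕ → ℤ) (k : ℤ) (w : ℝ) (m : ℕ → ℤ), 1 ≤ N → 1 ≤ q → Nat.Coprime q a → N ≤ q →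
  DatR N q a S e c d k w m → J ⊆ S →
  ∑ p ∈ OP q, wt q p * (∑ n ∈ J, (e n p : ℝ)) ^ (2 * j) ≤
    C * ((J.card : ℝ) ^ j * Real.log q +
      (J.card : ℝ) ^ (2 * j) * Real.sqrt (Real.log q * (1 + Real.log N)))

/-- MAIN13 (from A1, PG, FS4, SPB, UNSK, MAIN8, PIU; copy of `Helper73/RD8/MAIN11.lean`): many
primes up to some `y ≥ N ^ ε √(log q)` divide `q`. -/
def ST_MAIN13 : Prop := ∀ ε : ℝ, 0 < ε → ∀ j : ℕ, 1 ≤ j → ∃ C δ : ℝ, 0 < C ∧ 0 < δ ∧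
  ∀ N q a y : ℕ, 1 ≤ N → 1 ≤ q → 1 ≤ y → Nat.Coprime q a →
  (N : ℝ) ^ ε * Real.sqrt (Real.log q) ≤ y →
  (N : ℝ) ^ (-δ) * y ≤ (((Icc 1 y).filter (fun p => p.Prime ∧ p ∣ q)).card : ℝ) →
  (((range N).filter (fun n => IsSquare (q * n + a))).card : ℝ) ≤
    C * (N : ℝ) ^ ε * (Real.sqrt N + (Real.log q / y) ^ (1 / (j : ℝ)))

end Pool.Agent.Helper83.RD8
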